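import Pool.Agent.Y738.RC.Poly

set_option autoImplicit false

namespace Pool.Agent.Y738.RC

open Polynomial

noncomputable section

open Classical in
/-- integer vectors with coordinates of absolute value at most `A` -/
def box (ι : Type) [Fintype ι] (A : ℕ) : Finset (ι → ℤ) :=
  Fintype.piFinset fun _ => Finset.Icc (-(A : ℤ)) A

open Classical in
theorem mem_box {ι : Type} [Fintype ι] {A : ℕ} {c : ι → ℤ} : c ∈ box ι A ↔ ∀ i, |c i| ≤ A := by
  simp only [box, Fintype.mem_piFinset, Finset.mem_Icc, abs_le]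

open Classical in
theorem card_box (ι : Type) [Fintype ι] (A : ℕ) : (box ι A).card = (2 * A + 1) ^ Fintype.card ι := by
  rw [box, Fintype.card_piFinset]
  simp only [Int.card_Icc, Finset.prod_const, Finset.card_univ]
  congr 1
  omega

open Classical in
/-- integer polynomials of degree at most `d` vanishing at `θ`, coefficients at most `A` -/
def T (d : ℕ) (θ : ℂ) (A : ℕ) : Finset (Fin (d + 1) → ℤ) :=
  (box (Fin (d + 1)) A).filter fun c => ∑ k, (c k : ℂ) * θ ^ (k : ℕ) = 0

theorem aeval_ofFn (n : ℕ) (c : Fin n → ℤ) (θ : ℂ) :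
    aeval θ (ofFn n c) = ∑ k, (c k : ℂ) * θ ^ (k : ℕ) := by
  classical
  rw [ofFn_eq_sum_monomial, map_sum]
  refine Finset.sum_congr rfl fun k _ => ?_
  rw [aeval_monomial]
  simp

theorem card_T (d r H h : ℕ) (hd : 1 ≤ d) (hH : 1 ≤ H) (hh : 1 ≤ h) (θ : ℂ)
    (hθ : ∃ q : ℤ[X], q ≠ 0 ∧ q.natDegree ≤ r ∧ aeval θ q = 0)
    (hq : ∀ q : ℤ[X], q ≠ 0 → q.natDegree ≤ r → aeval θ q = 0 → ∃ k, (h : ℤ) ≤ |q.coeff k|) :
    ((T d θ (2 * H)).card : ℝ) ≤
      ((4 * 4 ^ d * (d + 1) + 1) * ((H : ℝ) / (min h H : ℕ))) ^ d := by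
  classical
  obtain ⟨q, hq0, hqr, hqθ⟩ := hθ
  obtain ⟨p, hp0, hpd, hpθ, hpdiv⟩ := exists_gen θ q hq0 hqθ
  have hpr : p.natDegree ≤ r := (natDegree_le_of_dvd (hpdiv q hqθ) hq0).trans hqr
  obtain ⟨j, hj⟩ := hq p hp0 hpr hpθ
  have hhR : (0 : ℝ) < h := by exact_mod_cast hh
  have hHR : (0 : ℝ) < H := by exact_mod_cast hH
  set R : ℝ := 4 ^ d * (d + 1) * (2 * H : ℝ) / h with hR
  have hR0 : 0 ≤ R := by positivity
  have hsub : T d θ (2 * H) ⊆
      (box (Fin d) ⌊R⌋₊).image (fun g => toFn (d + 1) (p * ofFn d g)) := by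
    intro c hc
    rw [T, Finset.mem_filter, mem_box] at hc
    obtain ⟨hcb, hc0⟩ := hc
    rw [← aeval_ofFn] at hc0
    obtain ⟨g, hg⟩ := hpdiv _ hc0
    have hcd : (ofFn (d + 1) c).natDegree ≤ d := by
      have := ofFn_natDegree_lt (n := d + 1) (by omega) c
      omega
    have hgd : g.natDegree ≤ d - 1 := by
      by_cases hg0 : g = 0
      · simp [hg0]
      · have := natDegree_mul hp0 hg0
        rw [← hg] at this
        omega
    by_cases hg0 : g = 0
    · rw [Finset.mem_image]
      refine ⟨0, ?_, ?_⟩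
      · rw [mem_box]; intro i; simp
      · have h1 : ofFn (d + 1) c = 0 := by rw [hg, hg0, mul_zero]
        have h2 : c = 0 := by
          rw [← toFn_comp_ofFn_eq_id (d + 1) c, h1]; simp
        rw [h2]; simp
    · have hpd2 : p.natDegree ≤ d := by
        have := natDegree_mul hp0 hg0
        rw [← hg] at this
        omega
      rw [Finset.mem_image]
      refine ⟨toFn d g, ?_, ?_⟩
      · rw [mem_box]
        intro i
        have h1 := quot_le d p g hp0 hpd2 (by omega) (by rw [← hg]; exact hcd) (2 * H) h hhR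
          (by
            intro k
            rw [← hg]
            by_cases hk : k < d + 1
            · rw [ofFn_coeff_eq_val_of_lt c hk]
              have := hcb ⟨k, hk⟩
              exact_mod_cast this
            · rw [ofFn_coeff_eq_zero_of_ge c (by omega)]
              simp) j (by exact_mod_cast hj) i
        have h2 : (|(toFn d g i : ℤ)| : ℝ) ≤ R := by
          have : toFn d g i = g.coeff i := rfl
          rw [this]; exact h1
        have h3 : |(toFn d g i : ℤ)|.toNat ≤ ⌊R⌋₊ := by
          apply Nat.le_floor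
          have : ((|(toFn d g i : ℤ)|.toNat : ℤ) : ℝ) ≤ R := by
            rw [Int.toNat_of_nonneg (abs_nonneg _)]
            exact_mod_cast h2
          exact_mod_cast this
        have h4 := Int.toNat_of_nonneg (abs_nonneg (toFn d g i : ℤ))
        omega
      · have h1 : ofFn d (toFn d g) = g := by
          apply ofFn_comp_toFn_eq_id_of_natDegree_lt
          omega
        rw [h1, ← hg]
        exact toFn_comp_ofFn_eq_id (d + 1) c
  have hcard : (T d θ (2 * H)).card ≤ (2 * ⌊R⌋₊ + 1) ^ d := by
    refine (Finset.card_le_card hsub).trans (Finset.card_image_le.trans ?_)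
    rw [card_box, Fintype.card_fin]
  have hm : (0 : ℝ) < ((min h H : ℕ) : ℝ) := by exact_mod_cast (by omega : 0 < min h H)
  have hm1 : ((min h H : ℕ) : ℝ) ≤ h := by exact_mod_cast Nat.min_le_left _ _
  have hm2 : ((min h H : ℕ) : ℝ) ≤ H := by exact_mod_cast Nat.min_le_right _ _
  calc ((T d θ (2 * H)).card : ℝ) ≤ ((2 * ⌊R⌋₊ + 1) ^ d : ℕ) := by exact_mod_cast hcard
    _ = (2 * (⌊R⌋₊ : ℝ) + 1) ^ d := by push_cast; ring
    _ ≤ (2 * R + 1) ^ d := by
        have := Nat.floor_le hR0
        gcongr
    _ ≤ ((4 * 4 ^ d * (d + 1) + 1) * ((H : ℝ) / (min h H : ℕ))) ^ d := by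
        apply pow_le_pow_left₀ (by positivity)
        have h5 : (H : ℝ) / h ≤ (H : ℝ) / (min h H : ℕ) := div_le_div_of_nonneg_left hHR.le hm hm1
        have h6 : 1 ≤ (H : ℝ) / (min h H : ℕ) := by rw [le_div_iff₀ hm]; linarith
        calc 2 * R + 1 = (4 * 4 ^ d * (d + 1)) * ((H : ℝ) / h) + 1 := by rw [hR]; ring
          _ ≤ (4 * 4 ^ d * (d + 1)) * ((H : ℝ) / (min h H : ℕ)) + (H : ℝ) / (min h H : ℕ) := by
              gcongr
          _ = _ := by ring

open Classical in
theorem card_fib {ι : Type} [Fintype ι] (d H : ℕ) (e : Fin (d + 1) → ι)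
    (he : Function.Injective e) (w : ι → ℂ) (θ : ℂ) (hw : ∀ k, w (e k) = θ ^ (k : ℕ)) (z : ℂ) :
    ((box ι H).filter (fun c => z + ∑ a, (c a : ℂ) * w a = 0)).card ≤
      (T d θ (2 * H)).card * (2 * H + 1) ^ (Fintype.card ι - (d + 1)) := by
  set s := (box ι H).filter (fun c => z + ∑ a, (c a : ℂ) * w a = 0) with hs
  let f : (ι → ℤ) → ({a // a ∉ Set.range e} → ℤ) := fun c a => c a
  have h1 : ∀ u ∈ s.image f, (s.filter (fun c => f c = u)).card ≤ (T d θ (2 * H)).card := by
    intro u hu
    rw [Finset.mem_image] at hu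
    obtain ⟨c0, hc0, rfl⟩ := hu
    apply Finset.card_le_card_of_injOn (fun c k => c (e k) - c0 (e k))
    · intro c hc
      rw [Finset.mem_coe, Finset.mem_filter] at hc
      obtain ⟨hc1, hc2⟩ := hc
      rw [hs, Finset.mem_filter, mem_box] at hc1 hc0
      rw [Finset.mem_coe, T, Finset.mem_filter, mem_box]
      refine ⟨fun k => ?_, ?_⟩
      · have h2 := hc1.1 (e k)
        have h3 := hc0.1 (e k)
        rw [abs_le] at h2 h3 ⊢
        push_cast
        constructor <;> linarith
      · have h4 : ∑ a, ((c a - c0 a : ℤ) : ℂ) * w a = 0 := by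
          have e1 := hc1.2
          have e2 := hc0.2
          have e3 : ∑ a, ((c a - c0 a : ℤ) : ℂ) * w a =
              (z + ∑ a, (c a : ℂ) * w a) - (z + ∑ a, (c0 a : ℂ) * w a) := by
            rw [add_sub_add_left_eq_sub, ← Finset.sum_sub_distrib]
            refine Finset.sum_congr rfl fun a _ => ?_
            push_cast; ring
          rw [e3, e1, e2, sub_zero]
        have h5 : ∑ k : Fin (d + 1), (((c (e k) - c0 (e k) : ℤ)) : ℂ) * θ ^ (k : ℕ) =
            ∑ a, ((c a - c0 a : ℤ) : ℂ) * w a := by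
          symm
          calc ∑ a, ((c a - c0 a : ℤ) : ℂ) * w a
              = ∑ a ∈ Finset.univ.image e, ((c a - c0 a : ℤ) : ℂ) * w a := by
                symm
                apply Finset.sum_subset (Finset.subset_univ _)
                intro a _ ha
                have ha2 : a ∉ Set.range e := by
                  intro ⟨k, hk⟩
                  exact ha (Finset.mem_image.2 ⟨k, Finset.mem_univ _, hk⟩)
                have := congrFun hc2 ⟨a, ha2⟩
                simp only [f] at this
                rw [this]; simp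
            _ = ∑ k : Fin (d + 1), (((c (e k) - c0 (e k) : ℤ)) : ℂ) * w (e k) := by
                rw [Finset.sum_image (fun a _ b _ hab => he hab)]
            _ = _ := Finset.sum_congr rfl fun k _ => by rw [hw]
        rw [h5, h4]
    · intro c hc c' hc' hcc
      rw [Finset.mem_coe, Finset.mem_filter] at hc hc'
      funext a
      by_cases ha : a ∈ Set.range e
      · obtain ⟨k, rfl⟩ := ha
        have := congrFun hcc k
        simp only at this
        linarith
      · have h2 := congrFun hc.2 ⟨a, ha⟩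
        have h3 := congrFun hc'.2 ⟨a, ha⟩
        simp only [f] at h2 h3
        rw [h2, h3]
  have h2 := Finset.card_le_mul_card_image s _ h1
  refine h2.trans (Nat.mul_le_mul_left _ ?_)
  have h3 : s.image f ⊆ box {a // a ∉ Set.range e} H := by
    intro u hu
    rw [Finset.mem_image] at hu
    obtain ⟨c, hc, rfl⟩ := hu
    rw [hs, Finset.mem_filter, mem_box] at hc
    rw [mem_box]
    intro a
    exact hc.1 a
  refine (Finset.card_le_card h3).trans ?_
  rw [card_box]
  have h4 : Fintype.card {a // a ∉ Set.range e} = Fintype.card ι - (d + 1) := by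
    rw [Fintype.card_subtype_compl]
    congr 1
    have : Fintype.card (Set.range e) = Fintype.card (Fin (d + 1)) :=
      Set.card_range_of_injective he
    rw [Fintype.card_fin] at this
    exact this
  rw [h4]

end

end Pool.Agent.Y738.RC
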