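import Pool.Agent.Y738.RC.Gen

set_option autoImplicit false

namespace Pool.Agent.Y738.RC

open Polynomial

noncomputable section

/-- rational points of height at most `B` -/
def RatPt {n : ℕ} (B : ℕ) (x : Fin (n + 1) → ℂ) : Prop :=
  ∃ z : Fin (n + 1) → ℤ, z ≠ 0 ∧ (∀ k, |z k| ≤ B) ∧ x = fun k => (z k : ℂ)

/-- algebraic points of degree at most `r` and height at most `B` -/
def SmallPt {n : ℕ} (r B : ℕ) (x : Fin (n + 1) → ℂ) : Prop :=
  ∃ j, x j ≠ 0 ∧ ∀ k, ∃ q : ℤ[X], q ≠ 0 ∧ q.natDegree ≤ r ∧ (∀ m, |q.coeff m| ≤ B) ∧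
    aeval (x k / x j) q = 0

theorem bad_mono {n s : ℕ} (F : Fin s → MvPolynomial (Fin (n + 1)) ℂ)
    (S : Fin s → Finset (Fin (n + 1) → ℕ)) (H : ℕ) (Q : (Fin (n + 1) → ℂ) → Prop)
    (P : Finset (Fin (n + 1) → ℂ)) 
    (h : ∀ c, c ∈ bad F S H Q → c ∈ bad F S H (fun x => x ∈ P)) :
    (bad F S H Q).ncard ≤ (bad F S H (fun x => x ∈ P)).ncard := by
  classical
  refine Set.ncard_le_ncard h ?_
  have hfin : ((Fintype.piFinset fun i => box (S i) H : Finset ((i : Fin s) → S i → ℤ)) :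
      Set ((i : Fin s) → S i → ℤ)).Finite := Finset.finite_toSet _
  refine hfin.subset ?_
  rintro c ⟨hc, -⟩
  rw [Finset.mem_coe, Fintype.mem_piFinset]
  intro i
  rw [mem_box]
  exact hc i

theorem alg_one_ratio (a b : ℤ) (hb : b ≠ 0) : Alg 1 ((a : ℂ) / b) := by
  refine ⟨C b * X - C a, ?_, ?_, ?_⟩
  · intro h
    have := congrArg (fun p => p.coeff 1) h
    simp only [coeff_sub, coeff_C_mul, coeff_X_one, mul_one, coeff_C_ne_zero one_ne_zero,
      sub_zero, coeff_zero] at this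
    exact hb this
  · compute_degree
  · have : (b : ℂ) ≠ 0 := by exact_mod_cast hb
    simp
    field_simp
    ring

theorem rat_le {n s : ℕ} (hn : 1 ≤ n) (H B : ℕ) (d : Fin s → ℕ) (hd : ∀ i, 1 ≤ d i) (hH : 1 ≤ H)
    (hD : 2 * n < ∑ i, d i) (hB : B ^ (n + 1) ≤ H ^ (∑ i, d i))
    (F : Fin s → MvPolynomial (Fin (n + 1)) ℂ) (hF : ∀ i, (F i).IsHomogeneous (d i))
    (S : Fin s → Finset (Fin (n + 1) → ℕ)) (hS : ∀ i, ∀ α ∈ S i, ∑ k, α k = d i)
    (hS2 : ∀ i, TwoVar (d i) (S i)) :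
    ((bad F S H (RatPt B)).ncard : ℝ) * (H : ℝ) ^ s ≤
      (Cst n 1 d * (1 + 3 ^ (n + 1))) * (2 * H + 1 : ℝ) ^ (∑ i, (S i).card) := by
  classical
  rcases Nat.eq_zero_or_pos B with hB0 | hB1
  · have h1 : bad F S H (RatPt B) = ∅ := by
      ext c
      simp only [bad, Set.mem_setOf_eq, Set.mem_empty_iff_false, iff_false]
      rintro ⟨-, x, ⟨z, hz, hzB, -⟩, -⟩
      apply hz
      funext k
      have := hzB k
      rw [hB0] at this
      simpa using this
    rw [h1]
    simp only [Set.ncard_empty, Nat.cast_zero, zero_mul]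
    have := (Cst_pos n 1 d).le
    positivity
  set P : Finset (Fin (n + 1) → ℂ) :=
    ((box (Fin (n + 1)) B).filter (fun z => z ≠ 0)).image (fun z k => (z k : ℂ)) with hP
  have hPa : ∀ x ∈ P, AlgPt 1 x := by
    intro x hx
    rw [hP, Finset.mem_image] at hx
    obtain ⟨z, hz, rfl⟩ := hx
    have hz0 := (Finset.mem_filter.1 hz).2
    obtain ⟨j, hj⟩ := Function.ne_iff.1 hz0
    exact ⟨j, by simpa using hj, fun k => alg_one_ratio _ _ hj⟩
  have h1 := bad_le hn 1 H d hd hH (by omega) F hF S hS hS2 P hPa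
  have h2 := bad_mono F S H (RatPt B) P (by
    rintro c ⟨hc, x, ⟨z, hz, hzB, rfl⟩, hx⟩
    refine ⟨hc, _, ?_, hx⟩
    change _ ∈ P
    rw [hP, Finset.mem_image]
    exact ⟨z, Finset.mem_filter.2 ⟨mem_box.2 hzB, hz⟩, rfl⟩)
  have h3 : (P.card : ℝ) / (H : ℝ) ^ (∑ i, d i) ≤ 3 ^ (n + 1) := by
    rw [div_le_iff₀ (by positivity)]
    have h4 : P.card ≤ (2 * B + 1) ^ (n + 1) := by
      refine Finset.card_image_le.trans ((Finset.card_filter_le _ _).trans ?_)
      rw [card_box, Fintype.card_fin]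
    have h5 : (2 * B + 1) ^ (n + 1) ≤ 3 ^ (n + 1) * H ^ (∑ i, d i) := by
      calc (2 * B + 1) ^ (n + 1) ≤ (3 * B) ^ (n + 1) := Nat.pow_le_pow_left (by omega) _
        _ = 3 ^ (n + 1) * B ^ (n + 1) := by rw [mul_pow]
        _ ≤ _ := Nat.mul_le_mul_left _ hB
    exact_mod_cast h4.trans h5
  have hC := (Cst_pos n 1 d).le
  calc ((bad F S H (RatPt B)).ncard : ℝ) * (H : ℝ) ^ s
      ≤ ((bad F S H (fun x => x ∈ P)).ncard : ℝ) * (H : ℝ) ^ s := by
        apply mul_le_mul_of_nonneg_right _ (by positivity)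
        exact_mod_cast h2
    _ ≤ Cst n 1 d * (2 * H + 1 : ℝ) ^ (∑ i, (S i).card) *
        (1 + P.card / (H : ℝ) ^ (∑ i, d i)) := h1
    _ ≤ Cst n 1 d * (2 * H + 1 : ℝ) ^ (∑ i, (S i).card) * (1 + 3 ^ (n + 1)) := by
        apply mul_le_mul_of_nonneg_left _ (by positivity)
        linarith
    _ = _ := by ring

theorem small_le {n s : ℕ} (hn : 1 ≤ n) (r H B : ℕ) (d : Fin s → ℕ) (hd : ∀ i, 1 ≤ d i)
    (hH : 1 ≤ H) (hD : n * (r + 1) < ∑ i, d i) (hB : B ^ (n * (r + 1)) ≤ H ^ (∑ i, d i))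
    (F : Fin s → MvPolynomial (Fin (n + 1)) ℂ) (hF : ∀ i, (F i).IsHomogeneous (d i))
    (S : Fin s → Finset (Fin (n + 1) → ℕ)) (hS : ∀ i, ∀ α ∈ S i, ∑ k, α k = d i)
    (hS2 : ∀ i, TwoVar (d i) (S i)) :
    ((bad F S H (SmallPt r B)).ncard : ℝ) * (H : ℝ) ^ s ≤
      (Cst n r d * (1 + (n + 1) * (3 ^ (r + 1) * r) ^ n)) *
        (2 * H + 1 : ℝ) ^ (∑ i, (S i).card) := by
  classical
  rcases Nat.eq_zero_or_pos B with hB0 | hB1
  · have h1 : bad F S H (SmallPt r B) = ∅ := by
      ext c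
      simp only [bad, Set.mem_setOf_eq, Set.mem_empty_iff_false, iff_false]
      rintro ⟨-, x, ⟨j, hj, hk⟩, -⟩
      obtain ⟨q, hq0, -, hqB, -⟩ := hk j
      apply hq0
      ext m
      have := hqB m
      rw [hB0] at this
      simpa using this
    rw [h1]
    simp only [Set.ncard_empty, Nat.cast_zero, zero_mul]
    have := (Cst_pos n r d).le
    positivity
  set P : Finset (Fin (n + 1) → ℂ) := (Finset.univ : Finset (Fin (n + 1))).biUnion (fun j =>
    ((Fintype.piFinset (fun _ : Fin n => (ASet r B).filter (fun θ => Alg r θ))).image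
      (fun w => j.insertNth (1 : ℂ) w))) with hP
  have hone : Alg r 1 ∨ r = 0 := by
    rcases Nat.eq_zero_or_pos r with h | h
    · exact Or.inr h
    · left
      refine ⟨X - C 1, X_sub_C_ne_zero _, ?_, by simp⟩
      rw [natDegree_X_sub_C]; exact h
  have h2 := bad_mono F S H (SmallPt r B) P (by
    rintro c ⟨hc, x, ⟨j, hj, hk⟩, hx⟩
    refine ⟨hc, fun k => (1 / x j) * x k, ?_, OnVar.smul hF hS hx (1 / x j)⟩
    change _ ∈ P
    rw [hP, Finset.mem_biUnion]
    refine ⟨j, Finset.mem_univ _, ?_⟩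
    rw [Finset.mem_image]
    refine ⟨fun i => x (j.succAbove i) / x j, ?_, ?_⟩
    · rw [Fintype.mem_piFinset]
      intro i
      obtain ⟨q, h1, h2, h3, h4⟩ := hk (j.succAbove i)
      rw [Finset.mem_filter]
      exact ⟨mem_ASet ⟨q, h1, h2, h4⟩ (hgt_le_of q h1 h2 h3 h4), ⟨q, h1, h2, h4⟩⟩
    · funext k
      by_cases hkj : k = j
      · subst hkj
        rw [Fin.insertNth_apply_same]
        field_simp
      · obtain ⟨i, rfl⟩ := Fin.exists_succAbove_eq hkj
        rw [Fin.insertNth_apply_succAbove]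
        ring)
  rcases hone with hone | hr0
  · have hPa : ∀ x ∈ P, AlgPt r x := by
      intro x hx
      rw [hP, Finset.mem_biUnion] at hx
      obtain ⟨j, -, hx⟩ := hx
      rw [Finset.mem_image] at hx
      obtain ⟨w, hw, rfl⟩ := hx
      rw [Fintype.mem_piFinset] at hw
      refine ⟨j, ?_, fun k => ?_⟩
      · rw [Fin.insertNth_apply_same]; exact one_ne_zero
      · rw [Fin.insertNth_apply_same, div_one]
        by_cases hkj : k = j
        · subst hkj
          rw [Fin.insertNth_apply_same]; exact hone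
        · obtain ⟨i, rfl⟩ := Fin.exists_succAbove_eq hkj
          rw [Fin.insertNth_apply_succAbove]
          exact (Finset.mem_filter.1 (hw i)).2
    have h1 := bad_le hn r H d hd hH hD F hF S hS hS2 P hPa
    have h3 : (P.card : ℝ) / (H : ℝ) ^ (∑ i, d i) ≤ (n + 1) * (3 ^ (r + 1) * r) ^ n := by
      rw [div_le_iff₀ (by positivity)]
      have h4 : P.card ≤ (n + 1) * ((3 * B) ^ (r + 1) * r) ^ n := by
        rw [hP]
        refine Finset.card_biUnion_le.trans ?_
        calc _ ≤ ∑ j : Fin (n + 1), ((3 * B) ^ (r + 1) * r) ^ n := by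
              refine Finset.sum_le_sum fun j _ => ?_
              refine Finset.card_image_le.trans ?_
              rw [Fintype.card_piFinset, Finset.prod_const, Finset.card_univ, Fintype.card_fin]
              apply Nat.pow_le_pow_left
              refine (Finset.card_filter_le _ _).trans ((card_ASet r B).trans ?_)
              apply Nat.mul_le_mul_right
              apply Nat.pow_le_pow_left
              omega
          _ = _ := by
              rw [Finset.sum_const, Finset.card_univ, Fintype.card_fin, smul_eq_mul]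
      have h5 : (n + 1) * ((3 * B) ^ (r + 1) * r) ^ n =
          (n + 1) * (3 ^ (r + 1) * r) ^ n * B ^ (n * (r + 1)) := by
        rw [mul_pow 3 B, mul_comm n (r + 1), pow_mul B]
        ring
      rw [h5] at h4
      have h6 := h4.trans (Nat.mul_le_mul_left _ hB)
      exact_mod_cast h6
    have hC := (Cst_pos n r d).le
    calc ((bad F S H (SmallPt r B)).ncard : ℝ) * (H : ℝ) ^ s
        ≤ ((bad F S H (fun x => x ∈ P)).ncard : ℝ) * (H : ℝ) ^ s := by
          apply mul_le_mul_of_nonneg_right _ (by positivity)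
          exact_mod_cast h2
      _ ≤ Cst n r d * (2 * H + 1 : ℝ) ^ (∑ i, (S i).card) *
          (1 + P.card / (H : ℝ) ^ (∑ i, d i)) := h1
      _ ≤ Cst n r d * (2 * H + 1 : ℝ) ^ (∑ i, (S i).card) *
          (1 + (n + 1) * (3 ^ (r + 1) * r) ^ n) := by
          apply mul_le_mul_of_nonneg_left _ (by positivity)
          linarith
      _ = _ := by ring
  · have h1 : bad F S H (SmallPt r B) = ∅ := by
      ext c
      simp only [bad, Set.mem_setOf_eq, Set.mem_empty_iff_false, iff_false]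
      rintro ⟨-, x, ⟨j, hj, hk⟩, -⟩
      obtain ⟨q, hq0, hqr, -, hq⟩ := hk j
      rw [hr0] at hqr
      have h5 : q = C (q.coeff 0) := eq_C_of_natDegree_eq_zero (by omega)
      apply hq0
      rw [h5, aeval_C] at hq
      have : q.coeff 0 = 0 := by simpa using hq
      rw [h5, this, C_0]
    rw [h1]
    simp only [Set.ncard_empty, Nat.cast_zero, zero_mul]
    have := (Cst_pos n r d).le
    positivity

end

end Pool.Agent.Y738.RC
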