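import Pool.Agent.Y738.RC.Lev

set_option autoImplicit false

namespace Pool.Agent.Y738.RC

open Polynomial

noncomputable section

open Classical in
/-- solutions, level by level -/
def sol (d n H : ℕ) (ζ : ℤ) (z : Fin n → ℤ) (t : ℤ) : Finset ((Fin d → Fin n → ℤ) × ℤ) :=
  ((Fintype.piFinset fun _ : Fin d => box (Fin n) H) ×ˢ Finset.Icc (-(H : ℤ)) H).filter
    (fun p => ∑ l : Fin d, ζ ^ (d - 1 - (l : ℕ)) * ∑ i, p.1 l i * z i ^ ((l : ℕ) + 1) +
      p.2 * ζ ^ d = t)

theorem card_sol (n H : ℕ) (hn : 1 ≤ n) (ζ : ℤ) (q : ℕ) (hζ : |ζ| = q) (hq : 1 ≤ q) (hqH : q ≤ H)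
    (z : Fin n → ℤ) (hz : ∀ m : ℕ, ∃ u : Fin n → ℤ, (q : ℤ) ∣ (∑ i, u i * z i ^ (m + 1)) - 1)
    (d : ℕ) : ∀ t : ℤ, ((sol d n H ζ z t).card : ℝ) ≤ ((3 * H : ℝ) ^ n / q) ^ d := by
  classical
  have hζ0 : ζ ≠ 0 := by
    intro h; rw [h] at hζ; simp at hζ; omega
  have hqζ : ∀ x : ℤ, (q : ℤ) ∣ x ↔ ζ ∣ x := fun x => by rw [← hζ, abs_dvd]
  induction d with
  | zero =>
    intro t
    rw [pow_zero]
    have h1 : (sol 0 n H ζ z t).card ≤ 1 := by
      rw [Finset.card_le_one]
      intro a ha b hb
      rw [sol, Finset.mem_filter] at ha hb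
      have e1 := ha.2
      have e2 := hb.2
      simp only [Finset.univ_eq_empty, Finset.sum_empty, pow_zero, mul_one, zero_add] at e1 e2
      apply Prod.ext
      · exact Subsingleton.elim _ _
      · rw [e1, e2]
    exact_mod_cast h1
  | succ d ih =>
    intro t
    set L := (box (Fin n) H).filter (fun a => (q : ℤ) ∣ t - ∑ i, a i * z i ^ (d + 1)) with hL
    have key : ∀ p ∈ sol (d + 1) n H ζ z t,
        ζ * (∑ l : Fin d, ζ ^ (d - 1 - (l : ℕ)) * ∑ i, (Fin.init p.1 l) i * z i ^ ((l : ℕ) + 1) +
          p.2 * ζ ^ d) = t - ∑ i, p.1 (Fin.last d) i * z i ^ (d + 1) := by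
      intro p hp
      rw [sol, Finset.mem_filter] at hp
      have e := hp.2
      rw [Fin.sum_univ_castSucc] at e
      simp only [Fin.val_castSucc, Fin.val_last] at e
      have e2 : ∑ l : Fin d, ζ ^ (d + 1 - 1 - (l : ℕ)) *
          ∑ i, p.1 l.castSucc i * z i ^ ((l : ℕ) + 1) =
          ζ * ∑ l : Fin d, ζ ^ (d - 1 - (l : ℕ)) *
            ∑ i, (Fin.init p.1 l) i * z i ^ ((l : ℕ) + 1) := by
        rw [Finset.mul_sum]
        refine Finset.sum_congr rfl fun l _ => ?_
        have e3 : d + 1 - 1 - (l : ℕ) = (d - 1 - (l : ℕ)) + 1 := by omega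
        rw [e3, pow_succ]
        simp only [Fin.init]
        ring
      rw [e2] at e
      have e4 : d + 1 - 1 - d = 0 := by omega
      rw [e4, pow_zero, one_mul] at e
      rw [mul_add, ← e]
      ring
    have hmaps : ∀ p ∈ sol (d + 1) n H ζ z t, p.1 (Fin.last d) ∈ L := by
      intro p hp
      rw [hL, Finset.mem_filter]
      refine ⟨?_, ?_⟩
      · rw [sol, Finset.mem_filter, Finset.mem_product, Fintype.mem_piFinset] at hp
        exact hp.1.1 _
      · rw [hqζ, ← key p hp]
        exact dvd_mul_right _ _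
    have hfib : ∀ a ∈ L, (((sol (d + 1) n H ζ z t).filter
        (fun p => p.1 (Fin.last d) = a)).card : ℝ) ≤ ((3 * H : ℝ) ^ n / q) ^ d := by
      intro a _
      refine le_trans ?_ (ih ((t - ∑ i, a i * z i ^ (d + 1)) / ζ))
      have h1 : ((sol (d + 1) n H ζ z t).filter (fun p => p.1 (Fin.last d) = a)).card ≤
          (sol d n H ζ z ((t - ∑ i, a i * z i ^ (d + 1)) / ζ)).card := by
        apply Finset.card_le_card_of_injOn (fun p : (Fin (d + 1) → Fin n → ℤ) × ℤ =>
          ((Fin.init p.1 : Fin d → Fin n → ℤ), p.2))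
        · intro p hp
          rw [Finset.mem_coe, Finset.mem_filter] at hp
          have hk := key p hp.1
          rw [Finset.mem_coe, sol, Finset.mem_filter]
          have hp1 := hp.1
          rw [sol, Finset.mem_filter, Finset.mem_product, Fintype.mem_piFinset] at hp1
          refine ⟨?_, ?_⟩
          · rw [Finset.mem_product, Fintype.mem_piFinset]
            exact ⟨fun l => hp1.1.1 _, hp1.1.2⟩
          · rw [hp.2] at hk
            rw [← hk, Int.mul_ediv_cancel_left _ hζ0]
        · intro p hp p' hp' hpp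
          rw [Finset.mem_coe, Finset.mem_filter] at hp hp'
          simp only [Prod.mk.injEq] at hpp
          apply Prod.ext
          · funext l
            refine Fin.lastCases ?_ (fun l => ?_) l
            · rw [hp.2, hp'.2]
            · exact congrFun hpp.1 l
          · exact hpp.2
      exact_mod_cast h1
    have hLc := card_res hn H q hq hqH (fun i => z i ^ (d + 1)) (hz d) t
    calc ((sol (d + 1) n H ζ z t).card : ℝ)
        = ∑ a ∈ L, (((sol (d + 1) n H ζ z t).filter
          (fun p => p.1 (Fin.last d) = a)).card : ℝ) := by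
          rw [Finset.card_eq_sum_card_fiberwise hmaps]
          push_cast; rfl
      _ ≤ ∑ a ∈ L, ((3 * H : ℝ) ^ n / q) ^ d := Finset.sum_le_sum hfib
      _ = (L.card : ℝ) * ((3 * H : ℝ) ^ n / q) ^ d := by rw [Finset.sum_const, nsmul_eq_mul]
      _ ≤ ((3 * H : ℝ) ^ n / q) * ((3 * H : ℝ) ^ n / q) ^ d := by
          apply mul_le_mul_of_nonneg_right hLc (by positivity)
      _ = ((3 * H : ℝ) ^ n / q) ^ (d + 1) := by rw [pow_succ]; ring

theorem mono_ex' {n : ℕ} (i j : Fin (n + 1)) (hij : i ≠ j) (d k : ℕ) (y : Fin (n + 1) → ℂ) :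
    mono (ex i j d k) y = y i ^ k * y j ^ (d - k) := by
  classical
  have h1 : mono (ex i j d k) y = ∏ l ∈ ({i, j} : Finset (Fin (n + 1))), y l ^ ex i j d k l := by
    symm
    apply Finset.prod_subset (Finset.subset_univ _)
    intro l _ hl
    simp only [Finset.mem_insert, Finset.mem_singleton, not_or] at hl
    simp [ex, hl.1, hl.2]
  rw [h1, Finset.prod_pair hij]
  simp [ex, hij.symm]

theorem card_Gi {n : ℕ} (hn : 1 ≤ n) (d H : ℕ) 
    (G : MvPolynomial (Fin (n + 1)) ℂ) (S : Finset (Fin (n + 1) → ℕ)) (hS : TwoVar d S)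
    (j : Fin (n + 1)) (z : Fin (n + 1) → ℤ) (hz : ∃ u : Fin (n + 1) → ℤ, ∑ k, u k * z k = 1)
    (q : ℕ) (hq : |z j| = q) (hq1 : 1 ≤ q) (hqH : q ≤ H)
    [DecidablePred (fun c : S → ℤ => MvPolynomial.eval (fun k => (z k : ℂ)) G +
      ∑ α : S, (c α : ℂ) * mono α.1 (fun k => (z k : ℂ)) = 0)] :
    (((box S H).filter (fun c => MvPolynomial.eval (fun k => (z k : ℂ)) G +
      ∑ α : S, (c α : ℂ) * mono α.1 (fun k => (z k : ℂ)) = 0)).card : ℝ) ≤
      ((3 * H : ℝ) ^ n / q) ^ d * ((2 * H + 1 : ℝ) ^ S.card / (2 * H + 1 : ℝ) ^ (n * d + 1)) := by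
  classical
  set y : Fin (n + 1) → ℂ := fun k => (z k : ℂ) with hy
  set s := (box S H).filter (fun c => MvPolynomial.eval y G + ∑ α : S, (c α : ℂ) * mono α.1 y = 0)
    with hs
  have hex : ∀ (l : Fin d) (i : Fin n), ex (j.succAbove i) j d ((l : ℕ) + 1) ∈ S := by
    intro l i
    apply hS _ (ex_sum _ j (Fin.succAbove_ne j i) d _ (by omega))
    refine ⟨j.succAbove i, j, fun l h1 h2 => ?_⟩
    simp [ex, h1, h2]
  have hex0 : (fun l => if l = j then d else 0 : Fin (n + 1) → ℕ) ∈ S := by
    apply hS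
    · simp
    · refine ⟨j, j, fun l h1 _ => ?_⟩
      simp [h1]
  let e : (Fin d × Fin n) ⊕ Unit → S := fun p => match p with
    | Sum.inl (l, i) => ⟨ex (j.succAbove i) j d ((l : ℕ) + 1), hex l i⟩
    | Sum.inr _ => ⟨_, hex0⟩
  have he : Function.Injective e := by
    rintro (⟨l, i⟩ | u) (⟨l', i'⟩ | u') hab
    · have h1 : ex (j.succAbove i) j d ((l : ℕ) + 1) = ex (j.succAbove i') j d ((l' : ℕ) + 1) :=
        congrArg Subtype.val hab
      have h2 := congrFun h1 (j.succAbove i)
      have hii : i = i' := by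
        by_contra hne
        have h3 : j.succAbove i ≠ j.succAbove i' := fun h => hne (Fin.succAbove_right_injective h)
        simp [ex, h3, Fin.succAbove_ne] at h2
      subst hii
      simp only [ex, if_true] at h2
      have : l = l' := Fin.ext (by omega)
      rw [this]
    · have h1 : ex (j.succAbove i) j d ((l : ℕ) + 1) = fun l => if l = j then d else 0 :=
        congrArg Subtype.val hab
      have h2 := congrFun h1 (j.succAbove i)
      simp [ex, Fin.succAbove_ne] at h2
    · have h1 : (fun l => if l = j then d else 0) = ex (j.succAbove i') j d ((l' : ℕ) + 1) :=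
        congrArg Subtype.val hab
      have h2 := congrFun h1 (j.succAbove i')
      simp [ex, Fin.succAbove_ne] at h2
    · rfl
  have hle : n * d + 1 ≤ Fintype.card S := by
    have := Fintype.card_le_of_injective e he
    rw [Fintype.card_sum, Fintype.card_prod, Fintype.card_fin, Fintype.card_fin,
      Fintype.card_unit, mul_comm d n] at this
    exact this
  have hzz : ∀ m : ℕ, ∃ u : Fin n → ℤ,
      (q : ℤ) ∣ (∑ i, u i * z (j.succAbove i) ^ (m + 1)) - 1 := by
    intro m
    obtain ⟨u, hu⟩ := prim_pow z hz (m + 1)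
    refine ⟨fun i => u (j.succAbove i), ?_⟩
    rw [Fin.sum_univ_succAbove _ j] at hu
    rw [← hq, abs_dvd]
    refine ⟨-(u j * z j ^ m), ?_⟩
    rw [pow_succ] at hu
    linear_combination hu
  let f : (S → ℤ) → ({a // a ∉ Set.range e} → ℤ) := fun c a => c a
  -- the value on the range
  let ev : (S → ℤ) → ℤ := fun c => ∑ l : Fin d, z j ^ (d - 1 - (l : ℕ)) *
      ∑ i, c (e (Sum.inl (l, i))) * z (j.succAbove i) ^ ((l : ℕ) + 1) +
      c (e (Sum.inr ())) * z j ^ d
  have hev : ∀ c : S → ℤ, ∑ α : S, (c α : ℂ) * mono α.1 y =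
      (ev c : ℂ) + ∑ α ∈ Finset.univ.filter (fun a => a ∉ Set.range e), (c α : ℂ) * mono α.1 y := by
    intro c
    have h1 : (Finset.univ : Finset S) = Finset.univ.image e ∪
        Finset.univ.filter (fun a => a ∉ Set.range e) := by
      ext a
      simp only [Finset.mem_univ, Finset.mem_union, Finset.mem_image, true_and,
        Finset.mem_filter, Set.mem_range]
      constructor
      · intro _
        by_cases h : ∃ p, e p = a
        · exact Or.inl h
        · exact Or.inr h
      · intro _; trivial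
    have h2 : Disjoint (Finset.univ.image e) (Finset.univ.filter (fun a => a ∉ Set.range e)) := by
      rw [Finset.disjoint_left]
      intro a ha hb
      rw [Finset.mem_image] at ha
      obtain ⟨p, _, hp⟩ := ha
      exact (Finset.mem_filter.1 hb).2 ⟨p, hp⟩
    conv_lhs => rw [h1, Finset.sum_union h2]
    congr 1
    rw [Finset.sum_image (fun a _ b _ hab => he hab), Fintype.sum_sum_type, Fintype.sum_prod_type]
    have h3 : ∀ (l : Fin d) (i : Fin n), mono (e (Sum.inl (l, i))).1 y =
        (z (j.succAbove i) : ℂ) ^ ((l : ℕ) + 1) * (z j : ℂ) ^ (d - 1 - (l : ℕ)) := by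
      intro l i
      have : (e (Sum.inl (l, i))).1 = ex (j.succAbove i) j d ((l : ℕ) + 1) := rfl
      rw [this, mono_ex' _ _ (Fin.succAbove_ne j i), hy]
      congr 2
      omega
    have h4 : mono (e (Sum.inr ())).1 y = (z j : ℂ) ^ d := by
      have : (e (Sum.inr ())).1 = fun l => if l = j then d else 0 := rfl
      rw [this, mono]
      simp [hy]
    simp_rw [h3]
    simp only [Finset.univ_unique, PUnit.default_eq_unit, Finset.sum_singleton, h4]
    simp only [ev]
    push_cast
    congr 1
    refine Finset.sum_congr rfl fun l _ => ?_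
    rw [Finset.mul_sum]
    refine Finset.sum_congr rfl fun i _ => ?_
    ring
  have hfib : ∀ u ∈ s.image f, ((s.filter (fun c => f c = u)).card : ℝ) ≤
      ((3 * H : ℝ) ^ n / q) ^ d := by
    intro u hu
    rw [Finset.mem_image] at hu
    obtain ⟨c0, hc0, rfl⟩ := hu
    refine le_trans ?_ (card_sol n H hn (z j) q hq hq1 hqH (fun i => z (j.succAbove i)) hzz d (ev c0))
    have h1 : (s.filter (fun c => f c = f c0)).card ≤
        (sol d n H (z j) (fun i => z (j.succAbove i)) (ev c0)).card := by
      apply Finset.card_le_card_of_injOn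
        (fun c => (fun l i => c (e (Sum.inl (l, i))), c (e (Sum.inr ()))))
      · intro c hc
        rw [Finset.mem_coe, Finset.mem_filter] at hc
        obtain ⟨hc1, hc2⟩ := hc
        rw [hs, Finset.mem_filter, mem_box] at hc1 hc0
        rw [Finset.mem_coe, sol, Finset.mem_filter]
        refine ⟨?_, ?_⟩
        · rw [Finset.mem_product, Fintype.mem_piFinset]
          refine ⟨fun l => ?_, ?_⟩
          · rw [mem_box]; intro i; exact hc1.1 _
          · rw [Finset.mem_Icc, ← abs_le]; exact hc1.1 _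
        · have e1 := hc1.2
          have e2 := hc0.2
          rw [hev] at e1 e2
          have e3 : ∑ α ∈ Finset.univ.filter (fun a => a ∉ Set.range e), (c α : ℂ) * mono α.1 y =
              ∑ α ∈ Finset.univ.filter (fun a => a ∉ Set.range e), (c0 α : ℂ) * mono α.1 y := by
            refine Finset.sum_congr rfl fun a ha => ?_
            have := congrFun hc2 ⟨a, (Finset.mem_filter.1 ha).2⟩
            simp only [f] at this
            rw [this]
          rw [e3] at e1
          have e4 : (ev c : ℂ) = ev c0 := by linear_combination e1 - e2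
          have e5 : ev c = ev c0 := by exact_mod_cast e4
          exact e5
      · intro c hc c' hc' hcc
        rw [Finset.mem_coe, Finset.mem_filter] at hc hc'
        simp only [Prod.mk.injEq] at hcc
        funext a
        by_cases ha : a ∈ Set.range e
        · obtain ⟨p, rfl⟩ := ha
          rcases p with ⟨l, i⟩ | u
          · exact congrFun (congrFun hcc.1 l) i
          · exact hcc.2
        · have h2 := congrFun hc.2 ⟨a, ha⟩
          have h3 := congrFun hc'.2 ⟨a, ha⟩
          simp only [f] at h2 h3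
          rw [h2, h3]
    exact_mod_cast h1
  have himg : ((s.image f).card : ℝ) ≤ (2 * H + 1 : ℝ) ^ (Fintype.card S - (n * d + 1)) := by
    have h3 : s.image f ⊆ box {a // a ∉ Set.range e} H := by
      intro u hu
      rw [Finset.mem_image] at hu
      obtain ⟨c, hc, rfl⟩ := hu
      rw [hs, Finset.mem_filter, mem_box] at hc
      rw [mem_box]
      intro a
      exact hc.1 a
    have h4 : Fintype.card {a // a ∉ Set.range e} = Fintype.card S - (n * d + 1) := by
      rw [Fintype.card_subtype_compl]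
      congr 1
      have : Fintype.card (Set.range e) = Fintype.card ((Fin d × Fin n) ⊕ Unit) :=
        Set.card_range_of_injective he
      rw [Fintype.card_sum, Fintype.card_prod, Fintype.card_fin, Fintype.card_fin,
        Fintype.card_unit, mul_comm d n] at this
      exact this
    have h5 := Finset.card_le_card h3
    rw [card_box, h4] at h5
    exact_mod_cast h5
  have h5 : (2 * H + 1 : ℝ) ^ (Fintype.card S - (n * d + 1)) =
      (2 * H + 1 : ℝ) ^ S.card / (2 * H + 1 : ℝ) ^ (n * d + 1) := by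
    rw [pow_sub₀ _ (by positivity) hle, Fintype.card_coe, div_eq_mul_inv]
  have hfin : (s.card : ℝ) ≤
      ((3 * H : ℝ) ^ n / q) ^ d * ((2 * H + 1 : ℝ) ^ S.card / (2 * H + 1 : ℝ) ^ (n * d + 1)) := by
    calc (s.card : ℝ) = ∑ u ∈ s.image f, ((s.filter (fun c => f c = u)).card : ℝ) := by
          rw [Finset.card_eq_sum_card_image f s]; push_cast; rfl
      _ ≤ ∑ u ∈ s.image f, ((3 * H : ℝ) ^ n / q) ^ d := Finset.sum_le_sum hfib
      _ = ((s.image f).card : ℝ) * ((3 * H : ℝ) ^ n / q) ^ d := by
          rw [Finset.sum_const, nsmul_eq_mul]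
      _ ≤ (2 * H + 1 : ℝ) ^ (Fintype.card S - (n * d + 1)) * ((3 * H : ℝ) ^ n / q) ^ d :=
          mul_le_mul_of_nonneg_right himg (by positivity)
      _ = _ := by rw [h5]; ring
  convert hfin

end

end Pool.Agent.Y738.RC
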