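import Pool.Agent.Y738.RC.Fin

set_option autoImplicit false

namespace Pool.Agent.Y738.RC

open Polynomial

noncomputable section

/-- size of an integer vector -/
def sz {n : ℕ} (z : Fin (n + 1) → ℤ) : ℕ := Finset.univ.sup (fun k => (z k).natAbs)

theorem card_GZ {n s : ℕ} (hn : 1 ≤ n) (H : ℕ) (d : Fin s → ℕ)
    (F : Fin s → MvPolynomial (Fin (n + 1)) ℂ) (S : Fin s → Finset (Fin (n + 1) → ℕ))
    (hS : ∀ i, TwoVar (d i) (S i)) (z : Fin (n + 1) → ℤ)
    (hz : ∃ u : Fin (n + 1) → ℤ, ∑ k, u k * z k = 1) (h1 : 1 ≤ sz z) (hH : sz z ≤ H) :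
    ((Z F S H (fun k => (z k : ℂ))).card : ℝ) ≤
      (2 * H + 1 : ℝ) ^ (∑ i, (S i).card) / (2 * H + 1 : ℝ) ^ (n * ∑ i, d i + s) *
        ((3 * H : ℝ) ^ (n * ∑ i, d i) * (1 / (sz z : ℝ)) ^ (∑ i, d i)) := by
  classical
  obtain ⟨j, -, hj⟩ := Finset.exists_mem_eq_sup (Finset.univ : Finset (Fin (n + 1)))
    ⟨0, Finset.mem_univ _⟩ (fun k => (z k).natAbs)
  have hq : |z j| = (sz z : ℤ) := by
    rw [Int.abs_eq_natAbs]
    have : sz z = (z j).natAbs := hj
    rw [this]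
  rw [Z, Fintype.card_piFinset, Nat.cast_prod]
  calc _ ≤ ∏ i, (((3 * H : ℝ) ^ n / sz z) ^ d i *
        ((2 * H + 1 : ℝ) ^ (S i).card / (2 * H + 1 : ℝ) ^ (n * d i + 1))) := by
        apply Finset.prod_le_prod (fun i _ => by positivity)
        intro i _
        exact card_Gi hn (d i) H (F i) (S i) (hS i) j z hz (sz z) hq h1 hH
    _ = _ := by
        rw [Finset.prod_mul_distrib, Finset.prod_div_distrib, Finset.prod_pow_eq_pow_sum,
          Finset.prod_pow_eq_pow_sum, Finset.prod_pow_eq_pow_sum, Finset.sum_add_distrib,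
          ← Finset.mul_sum]
        simp only [Finset.sum_const, Finset.card_univ, Fintype.card_fin, smul_eq_mul, mul_one]
        rw [div_pow, ← pow_mul, one_div, inv_pow]
        ring

theorem gen_le {n s : ℕ} (hn : 1 ≤ n) (H : ℕ) (d : Fin s → ℕ) (hH : 1 ≤ H)
    (hD : n + 1 < ∑ i, d i)
    (F : Fin s → MvPolynomial (Fin (n + 1)) ℂ) (hF : ∀ i, (F i).IsHomogeneous (d i))
    (S : Fin s → Finset (Fin (n + 1) → ℕ)) (hS : ∀ i, ∀ α ∈ S i, ∑ k, α k = d i)
    (hS2 : ∀ i, TwoVar (d i) (S i)) :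
    ((bad F S H (RatPt H)).ncard : ℝ) * (H : ℝ) ^ s ≤
      (2 ^ (n * ∑ i, d i) * (3 ^ (n + 1) * 2 ^ (n + 1 + 1))) *
        (2 * H + 1 : ℝ) ^ (∑ i, (S i).card) := by
  classical
  set D := ∑ i, d i with hDdef
  have hHR : (1 : ℝ) ≤ H := by exact_mod_cast hH
  set P : Finset (Fin (n + 1) → ℤ) := (box (Fin (n + 1)) H).filter
    (fun z => ∃ u : Fin (n + 1) → ℤ, ∑ k, u k * z k = 1) with hP
  have hszH : ∀ z ∈ P, sz z ≤ H := by
    intro z hz
    apply Finset.sup_le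
    intro k _
    have := mem_box.1 (Finset.mem_filter.1 hz).1 k
    rw [Int.abs_eq_natAbs] at this
    exact_mod_cast this
  have hsz1 : ∀ z ∈ P, 1 ≤ sz z := by
    intro z hz
    obtain ⟨u, hu⟩ := (Finset.mem_filter.1 hz).2
    by_contra hcon
    have h0 : ∀ k, z k = 0 := by
      intro k
      have : (z k).natAbs ≤ sz z := Finset.le_sup (f := fun k => (z k).natAbs) (Finset.mem_univ k)
      omega
    simp [h0] at hu
  have hcount : ∀ k : ℕ, 1 ≤ k → ((P.filter (fun z => sz z ≤ k)).card : ℝ) ≤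
      3 ^ (n + 1) * (k : ℝ) ^ (n + 1) := by
    intro k hk
    have h1 : P.filter (fun z => sz z ≤ k) ⊆ box (Fin (n + 1)) k := by
      intro z hz
      rw [Finset.mem_filter] at hz
      rw [mem_box]
      intro l
      rw [Int.abs_eq_natAbs]
      have : (z l).natAbs ≤ sz z := Finset.le_sup (f := fun k => (z k).natAbs) (Finset.mem_univ l)
      exact_mod_cast this.trans hz.2
    have h2 := Finset.card_le_card h1
    rw [card_box, Fintype.card_fin] at h2
    have h3 : (2 * k + 1) ^ (n + 1) ≤ (3 * k) ^ (n + 1) := Nat.pow_le_pow_left (by omega) _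
    rw [← mul_pow]
    exact_mod_cast h2.trans h3
  have hsum := sum_inv_le P sz hsz1 (3 ^ (n + 1)) (by positivity) (n + 1) D hD hcount
  have hsub : bad F S H (RatPt H) ⊆
      (P.biUnion (fun z => Z F S H (fun k => (z k : ℂ))) :
        Finset ((i : Fin s) → S i → ℤ)) := by
    rintro c ⟨hc, x, ⟨z, hz, hzB, rfl⟩, hx⟩
    obtain ⟨g, z', hg, hgz, hu⟩ := exists_prim z hz
    rw [Finset.mem_coe, Finset.mem_biUnion]
    refine ⟨z', ?_, ?_⟩
    · rw [hP, Finset.mem_filter, mem_box]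
      refine ⟨fun k => ?_, hu⟩
      have h1 := hzB k
      rw [hgz k, abs_mul] at h1
      have h2 : 1 ≤ |g| := Int.one_le_abs hg
      nlinarith [abs_nonneg (z' k)]
    · rw [mem_Z]
      refine ⟨hc, ?_⟩
      have h3 := OnVar.smul hF hS hx (1 / (g : ℂ))
      convert h3 using 2 with k
      rw [hgz k]
      have : (g : ℂ) ≠ 0 := by exact_mod_cast hg
      push_cast
      field_simp
  have hcard : ((bad F S H (RatPt H)).ncard : ℝ) ≤
      ∑ z ∈ P, ((Z F S H (fun k => (z k : ℂ))).card : ℝ) := by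
    have h1 : (bad F S H (RatPt H)).ncard ≤
        (P.biUnion (fun z => Z F S H (fun k => (z k : ℂ)))).card := by
      rw [← Set.ncard_coe_finset]
      exact Set.ncard_le_ncard hsub (Finset.finite_toSet _)
    exact_mod_cast h1.trans Finset.card_biUnion_le
  have h4 : ∑ z ∈ P, ((Z F S H (fun k => (z k : ℂ))).card : ℝ) ≤
      (2 * H + 1 : ℝ) ^ (∑ i, (S i).card) / (2 * H + 1 : ℝ) ^ (n * D + s) *
        ((3 * H : ℝ) ^ (n * D) * (3 ^ (n + 1) * 2 ^ (n + 1 + 1))) := by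
    refine (Finset.sum_le_sum fun z hz => card_GZ hn H d F S hS2 z (Finset.mem_filter.1 hz).2
      (hsz1 z hz) (hszH z hz)).trans ?_
    rw [← Finset.mul_sum, ← Finset.mul_sum]
    apply mul_le_mul_of_nonneg_left _ (by positivity)
    exact mul_le_mul_of_nonneg_left hsum (by positivity)
  have h5 : (3 * H : ℝ) ^ (n * D) ≤ 2 ^ (n * D) * (2 * H + 1 : ℝ) ^ (n * D) := by
    rw [← mul_pow]
    apply pow_le_pow_left₀ (by positivity)
    linarith
  have h6 : (H : ℝ) ^ s ≤ (2 * H + 1 : ℝ) ^ s := pow_le_pow_left₀ (by positivity) (by linarith) s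
  calc ((bad F S H (RatPt H)).ncard : ℝ) * (H : ℝ) ^ s
      ≤ ((2 * H + 1 : ℝ) ^ (∑ i, (S i).card) / (2 * H + 1 : ℝ) ^ (n * D + s) *
        ((3 * H : ℝ) ^ (n * D) * (3 ^ (n + 1) * 2 ^ (n + 1 + 1)))) * (2 * H + 1 : ℝ) ^ s :=
        mul_le_mul (hcard.trans h4) h6 (by positivity) (by positivity)
    _ ≤ ((2 * H + 1 : ℝ) ^ (∑ i, (S i).card) / (2 * H + 1 : ℝ) ^ (n * D + s) *
        ((2 ^ (n * D) * (2 * H + 1 : ℝ) ^ (n * D)) * (3 ^ (n + 1) * 2 ^ (n + 1 + 1)))) *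
          (2 * H + 1 : ℝ) ^ s := by
        gcongr
    _ = (2 ^ (n * D) * (3 ^ (n + 1) * 2 ^ (n + 1 + 1))) * (2 * H + 1 : ℝ) ^ (∑ i, (S i).card) := by
        rw [pow_add (2 * (H : ℝ) + 1) (n * D) s]
        have : (2 * (H : ℝ) + 1) ≠ 0 := by positivity
        field_simp

end

end Pool.Agent.Y738.RC
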