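import Pool.Agent.Y738.RC.Count

set_option autoImplicit false

namespace Pool.Agent.Y738.RC

open Polynomial

noncomputable section

/-- `θ` is algebraic of degree at most `r` -/
def Alg (r : ℕ) (θ : ℂ) : Prop := ∃ q : ℤ[X], q ≠ 0 ∧ q.natDegree ≤ r ∧ aeval θ q = 0

/-- height of an algebraic number -/
def hgt (r : ℕ) (θ : ℂ) : ℕ :=
  sInf {B : ℕ | ∃ q : ℤ[X], q ≠ 0 ∧ q.natDegree ≤ r ∧ (∀ k, |q.coeff k| ≤ B) ∧ aeval θ q = 0}

theorem exists_bound (q : ℤ[X]) : ∃ B : ℕ, ∀ k, |q.coeff k| ≤ B := by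
  refine ⟨∑ k ∈ q.support, (q.coeff k).natAbs, fun k => ?_⟩
  by_cases hk : k ∈ q.support
  · have h1 : (q.coeff k).natAbs ≤ ∑ k ∈ q.support, (q.coeff k).natAbs :=
      Finset.single_le_sum (f := fun k => (q.coeff k).natAbs) (fun _ _ => Nat.zero_le _) hk
    have h2 : |q.coeff k| = ((q.coeff k).natAbs : ℤ) := Int.abs_eq_natAbs _
    rw [h2]
    exact_mod_cast h1
  · rw [notMem_support_iff.1 hk, abs_zero]
    exact_mod_cast Nat.zero_le _

theorem hgt_mem {r : ℕ} {θ : ℂ} (h : Alg r θ) :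
    ∃ q : ℤ[X], q ≠ 0 ∧ q.natDegree ≤ r ∧ (∀ k, |q.coeff k| ≤ hgt r θ) ∧ aeval θ q = 0 := by
  apply Nat.sInf_mem (s := {B : ℕ | ∃ q : ℤ[X], q ≠ 0 ∧ q.natDegree ≤ r ∧
    (∀ k, |q.coeff k| ≤ B) ∧ aeval θ q = 0})
  obtain ⟨q, h1, h2, h3⟩ := h
  obtain ⟨B, hB⟩ := exists_bound q
  exact ⟨B, q, h1, h2, hB, h3⟩

theorem hgt_pos {r : ℕ} {θ : ℂ} (h : Alg r θ) : 1 ≤ hgt r θ := by
  by_contra hcon
  obtain ⟨q, h1, -, h3, -⟩ := hgt_mem h
  apply h1
  have h0 : hgt r θ = 0 := by omega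
  ext k
  have := h3 k
  rw [h0] at this
  simpa using this

theorem hgt_le {r : ℕ} {θ : ℂ} (q : ℤ[X]) (h1 : q ≠ 0) (h2 : q.natDegree ≤ r)
    (h3 : aeval θ q = 0) : ∃ k, (hgt r θ : ℤ) ≤ |q.coeff k| := by
  by_contra hcon
  push Not at hcon
  have h4 : 1 ≤ hgt r θ := hgt_pos ⟨q, h1, h2, h3⟩
  have h5 : hgt r θ ≤ hgt r θ - 1 := by
    apply Nat.sInf_le
    refine ⟨q, h1, h2, fun k => ?_, h3⟩
    have := hcon k
    omega
  omega

theorem hgt_le_of {r B : ℕ} {θ : ℂ} (q : ℤ[X]) (h1 : q ≠ 0) (h2 : q.natDegree ≤ r)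
    (h : ∀ k, |q.coeff k| ≤ B) (h3 : aeval θ q = 0) : hgt r θ ≤ B := 
  Nat.sInf_le ⟨q, h1, h2, h, h3⟩

open Classical in
/-- algebraic numbers of degree at most `r` and height at most `k` -/
def ASet (r k : ℕ) : Finset ℂ :=
  (box (Fin (r + 1)) k).biUnion fun c =>
    ((ofFn (r + 1) c).map (Int.castRingHom ℂ)).roots.toFinset

theorem mem_ASet {r k : ℕ} {θ : ℂ} (h : Alg r θ) (hk : hgt r θ ≤ k) : θ ∈ ASet r k := by
  classical
  obtain ⟨q, h1, h2, h3, h4⟩ := hgt_mem h
  rw [ASet, Finset.mem_biUnion]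
  refine ⟨toFn (r + 1) q, ?_, ?_⟩
  · rw [mem_box]
    intro i
    have h5 : toFn (r + 1) q i = q.coeff i := rfl
    rw [h5]
    exact (h3 i).trans (by exact_mod_cast hk)
  · have h5 : ofFn (r + 1) (toFn (r + 1) q) = q :=
      ofFn_comp_toFn_eq_id_of_natDegree_lt (by omega)
    rw [h5, Multiset.mem_toFinset, mem_roots', IsRoot.def, eval_map]
    refine ⟨?_, ?_⟩
    · intro h6
      apply h1
      exact (Polynomial.map_eq_zero_iff (Int.cast_injective)).1 h6
    · rw [aeval_def] at h4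
      exact h4

theorem card_ASet (r k : ℕ) : (ASet r k).card ≤ (2 * k + 1) ^ (r + 1) * r := by
  classical
  rw [ASet]
  refine Finset.card_biUnion_le.trans ?_
  calc ∑ c ∈ box (Fin (r + 1)) k, ((ofFn (r + 1) c).map (Int.castRingHom ℂ)).roots.toFinset.card
      ≤ ∑ c ∈ box (Fin (r + 1)) k, r := by
        refine Finset.sum_le_sum fun c _ => ?_
        refine (Multiset.toFinset_card_le _).trans ((card_roots' _).trans ?_)
        refine natDegree_map_le.trans ?_
        have := ofFn_natDegree_lt (n := r + 1) (by omega) c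
        omega
    _ = (2 * k + 1) ^ (r + 1) * r := by
        rw [Finset.sum_const, card_box, Fintype.card_fin, smul_eq_mul]

theorem sum_inv_le {α : Type} [DecidableEq α] (P : Finset α) (h : α → ℕ) (hpos : ∀ x ∈ P, 1 ≤ h x)
    (A : ℝ) (hA : 0 ≤ A) (E D : ℕ) (hED : E + 1 ≤ D)
    (hc : ∀ k : ℕ, 1 ≤ k → ((P.filter (fun x => h x ≤ k)).card : ℝ) ≤ A * (k : ℝ) ^ E) :
    ∑ x ∈ P, (1 / (h x : ℝ)) ^ D ≤ A * 2 ^ (E + 1) := by
  classical
  set J : ℕ := P.sup (fun x => Nat.log 2 (h x)) + 1 with hJ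
  have h1 : ∀ x ∈ P, Nat.log 2 (h x) ∈ Finset.range J := by
    intro x hx
    rw [Finset.mem_range, hJ]
    have : Nat.log 2 (h x) ≤ P.sup (fun x => Nat.log 2 (h x)) :=
      Finset.le_sup (f := fun x => Nat.log 2 (h x)) hx
    omega
  rw [← Finset.sum_fiberwise_of_maps_to h1]
  calc ∑ j ∈ Finset.range J, ∑ x ∈ P with Nat.log 2 (h x) = j, (1 / (h x : ℝ)) ^ D
      ≤ ∑ j ∈ Finset.range J, A * 2 ^ E * (1 / 2) ^ j := by
        refine Finset.sum_le_sum fun j _ => ?_
        calc ∑ x ∈ P with Nat.log 2 (h x) = j, (1 / (h x : ℝ)) ^ D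
            ≤ ∑ x ∈ P with Nat.log 2 (h x) = j, (1 / 2 ^ j : ℝ) ^ (E + 1) := by
              refine Finset.sum_le_sum fun x hx => ?_
              rw [Finset.mem_filter] at hx
              have h2 := hpos x hx.1
              have h3 : 2 ^ j ≤ h x := by
                rw [← hx.2]
                exact Nat.pow_log_le_self 2 (by omega)
              have h4 : (2 ^ j : ℝ) ≤ h x := by exact_mod_cast h3
              have h5 : (1 : ℝ) ≤ h x := by exact_mod_cast h2
              calc (1 / (h x : ℝ)) ^ D ≤ (1 / (h x : ℝ)) ^ (E + 1) := by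
                    apply pow_le_pow_of_le_one (by positivity) _ hED
                    rw [div_le_one (by linarith)]; exact h5
                _ ≤ (1 / 2 ^ j : ℝ) ^ (E + 1) := by
                    apply pow_le_pow_left₀ (by positivity)
                    exact one_div_le_one_div_of_le (by positivity) h4
          _ = ((P.filter (fun x => Nat.log 2 (h x) = j)).card : ℝ) * (1 / 2 ^ j : ℝ) ^ (E + 1) := by
              rw [Finset.sum_const, nsmul_eq_mul]
          _ ≤ (A * ((2 ^ (j + 1) : ℕ) : ℝ) ^ E) * (1 / 2 ^ j : ℝ) ^ (E + 1) := by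
              apply mul_le_mul_of_nonneg_right _ (by positivity)
              refine le_trans ?_ (hc (2 ^ (j + 1)) Nat.one_le_two_pow)
              have h6 : P.filter (fun x => Nat.log 2 (h x) = j) ⊆
                  P.filter (fun x => h x ≤ 2 ^ (j + 1)) := by
                intro x hx
                rw [Finset.mem_filter] at hx ⊢
                refine ⟨hx.1, ?_⟩
                have := Nat.lt_pow_succ_log_self (b := 2) (by norm_num) (h x)
                rw [hx.2] at this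
                exact this.le
              exact_mod_cast Finset.card_le_card h6
          _ = A * 2 ^ E * (1 / 2) ^ j := by
              push_cast
              have h7 : (2 : ℝ) ^ j ≠ 0 := by positivity
              rw [pow_succ (2 : ℝ) j, mul_pow, one_div, one_div, inv_pow, inv_pow, pow_succ]
              field_simp
    _ = A * 2 ^ E * ∑ j ∈ Finset.range J, (1 / 2 : ℝ) ^ j := by rw [Finset.mul_sum]
    _ ≤ A * 2 ^ E * 2 := by
        apply mul_le_mul_of_nonneg_left _ (by positivity)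
        exact sum_geometric_two_le J
    _ = A * 2 ^ (E + 1) := by rw [pow_succ]; ring

end

end Pool.Agent.Y738.RC
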