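import Pool.Agent.Y738.RC.Main

set_option autoImplicit false

namespace Pool.Agent.Y738.RC

open Polynomial

noncomputable section

theorem exists_prim {n : ℕ} (z : Fin (n + 1) → ℤ) (hz : z ≠ 0) :
    ∃ (g : ℤ) (z' : Fin (n + 1) → ℤ), g ≠ 0 ∧ (∀ k, z k = g * z' k) ∧
      ∃ u : Fin (n + 1) → ℤ, ∑ k, u k * z' k = 1 := by
  set I : Ideal ℤ := Ideal.span (Set.range z) with hI
  obtain ⟨g, hg⟩ := (IsPrincipalIdealRing.principal I).principal
  have h1 : ∀ k, ∃ w, z k = g * w := by
    intro k
    have : z k ∈ I := Ideal.subset_span ⟨k, rfl⟩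
    rw [hg] at this
    obtain ⟨w, hw⟩ := Ideal.mem_span_singleton.1 this
    exact ⟨w, hw⟩
  choose z' hz' using h1
  have hg0 : g ≠ 0 := by
    rintro rfl
    apply hz
    funext k
    rw [hz' k]; simp
  have h2 : g ∈ I := by rw [hg]; exact Ideal.mem_span_singleton_self g
  rw [hI, Ideal.mem_span_range_iff_exists_fun] at h2
  obtain ⟨u, hu⟩ := h2
  refine ⟨g, z', hg0, hz', u, ?_⟩
  have h3 : g * ∑ k, u k * z' k = g * 1 := by
    rw [Finset.mul_sum, mul_one]
    conv_rhs => rw [← hu]
    refine Finset.sum_congr rfl fun k _ => ?_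
    rw [hz' k]; ring
  exact mul_left_cancel₀ hg0 h3

theorem prim_pow {n : ℕ} (z : Fin (n + 1) → ℤ) (h : ∃ u : Fin (n + 1) → ℤ, ∑ k, u k * z k = 1)
    (m : ℕ) : ∃ u : Fin (n + 1) → ℤ, ∑ k, u k * z k ^ m = 1 := by
  have h1 : Ideal.span (Set.range z) = ⊤ := by
    rw [Ideal.eq_top_iff_one, Ideal.mem_span_range_iff_exists_fun]
    exact h
  have h2 := Ideal.span_pow_eq_top _ h1 m
  rw [← Set.range_comp, Ideal.eq_top_iff_one, Ideal.mem_span_range_iff_exists_fun] at h2
  exact h2

/-- residue count -/
theorem card_res {n : ℕ} (hn : 1 ≤ n) (H q : ℕ) (hq : 1 ≤ q) (hqH : q ≤ H) (z : Fin n → ℤ)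
    (hz : ∃ u : Fin n → ℤ, (q : ℤ) ∣ (∑ i, u i * z i) - 1) (t : ℤ) :
    (((box (Fin n) H).filter (fun a => (q : ℤ) ∣ t - ∑ i, a i * z i)).card : ℝ) ≤
      (3 * H : ℝ) ^ n / q := by
  classical
  haveI : NeZero q := ⟨by omega⟩
  -- the linear map
  let φ : (Fin n → ZMod q) →+ ZMod q :=
    { toFun := fun v => ∑ i, v i * (z i : ZMod q)
      map_zero' := by simp
      map_add' := by intro v w; simp only [Pi.add_apply, add_mul, Finset.sum_add_distrib] }
  have hsurj : Function.Surjective φ := by
    obtain ⟨u, hu⟩ := hz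
    intro s
    refine ⟨fun i => s * (u i : ZMod q), ?_⟩
    have h1 : ((∑ i, u i * z i : ℤ) : ZMod q) = 1 := by
      have := (ZMod.intCast_zmod_eq_zero_iff_dvd _ q).2 hu
      push_cast at this ⊢
      linear_combination this
    change ∑ i, s * (u i : ZMod q) * (z i : ZMod q) = s
    calc ∑ i, s * (u i : ZMod q) * (z i : ZMod q)
        = s * ((∑ i, u i * z i : ℤ) : ZMod q) := by
          push_cast; rw [Finset.mul_sum]
          exact Finset.sum_congr rfl fun i _ => by ring
      _ = s := by rw [h1, mul_one]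
  set V : Finset (Fin n → ZMod q) := Finset.univ.filter (fun v => φ v = (t : ZMod q)) with hV
  have hVc : q * V.card = q ^ n := by
    have h1 : ∀ s : ZMod q, (Finset.univ.filter (fun v => φ v = s)).card = V.card := by
      intro s
      exact AddMonoidHom.card_fiber_eq_of_mem_range φ (hsurj s) (hsurj _)
    have h2 := Finset.card_eq_sum_card_fiberwise (s := (Finset.univ : Finset (Fin n → ZMod q)))
      (t := (Finset.univ : Finset (ZMod q))) (f := φ) (by intro x _; simp)
    rw [Finset.card_univ, Fintype.card_fun, ZMod.card, Fintype.card_fin] at h2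
    rw [h2, Finset.sum_congr rfl (fun s _ => h1 s), Finset.sum_const, Finset.card_univ, ZMod.card,
      smul_eq_mul]
  have hcard : ((box (Fin n) H).filter (fun a => (q : ℤ) ∣ t - ∑ i, a i * z i)).card ≤
      V.card * (2 * H / q + 1) ^ n := by
    have h1 : ((box (Fin n) H).filter (fun a => (q : ℤ) ∣ t - ∑ i, a i * z i)).card ≤
        (V ×ˢ (Fintype.piFinset (fun _ : Fin n => Finset.range (2 * H / q + 1)))).card := by
      apply Finset.card_le_card_of_injOn
        (fun a : Fin n → ℤ => ((fun i => ((a i : ℤ) : ZMod q) : Fin n → ZMod q),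
          (fun i => ((a i + (H : ℤ)) / (q : ℤ)).toNat : Fin n → ℕ)))
      · intro a ha
        rw [Finset.mem_coe, Finset.mem_filter, mem_box] at ha
        rw [Finset.mem_coe, Finset.mem_product]
        refine ⟨?_, ?_⟩
        · rw [hV, Finset.mem_filter]
          refine ⟨Finset.mem_univ _, ?_⟩
          have h2 := (ZMod.intCast_zmod_eq_zero_iff_dvd _ q).2 ha.2
          push_cast at h2
          change ∑ i, ((a i : ℤ) : ZMod q) * (z i : ZMod q) = t
          linear_combination -h2
        · rw [Fintype.mem_piFinset]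
          intro i
          rw [Finset.mem_range]
          have h3 := ha.1 i
          rw [abs_le] at h3
          have h4 : (a i + H) / (q : ℤ) ≤ (2 * H : ℤ) / q :=
            Int.ediv_le_ediv (by exact_mod_cast hq) (by linarith)
          have h5 : (2 * H : ℤ) / q = ((2 * H / q : ℕ) : ℤ) := by push_cast; rfl
          rw [h5] at h4
          have h6 : 0 ≤ (a i + H) / (q : ℤ) := Int.ediv_nonneg (by linarith) (by positivity)
          simp only
          omega
      · intro a ha b hb hab
        rw [Finset.mem_coe, Finset.mem_filter, mem_box] at ha hb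
        simp only [Prod.mk.injEq] at hab
        funext i
        have h1 := congrFun hab.1 i
        have h2 := congrFun hab.2 i
        have h3 := (ZMod.intCast_eq_intCast_iff_dvd_sub _ _ q).1 h1
        have ha3 := ha.1 i
        have hb3 := hb.1 i
        rw [abs_le] at ha3 hb3
        have hq0 : (0 : ℤ) < q := by exact_mod_cast hq
        have h6 : 0 ≤ (a i + H) / (q : ℤ) := Int.ediv_nonneg (by linarith) (by positivity)
        have h7 : 0 ≤ (b i + H) / (q : ℤ) := Int.ediv_nonneg (by linarith) (by positivity)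
        have h8 : (a i + H) / (q : ℤ) = (b i + H) / (q : ℤ) := by omega
        have h9 : (a i + H) % (q : ℤ) = (b i + H) % (q : ℤ) := by
          apply Int.ModEq.symm
          apply (Int.modEq_iff_dvd).2
          have : a i + H - (b i + H) = -(b i - a i) := by ring
          rw [this]
          exact (dvd_neg).2 h3
        have h10 := Int.emod_add_mul_ediv (a i + H) q
        have h11 := Int.emod_add_mul_ediv (b i + H) q
        rw [h8, h9] at h10
        linarith
    rw [Finset.card_product, Fintype.card_piFinset, Finset.prod_const, Finset.card_univ,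
      Fintype.card_fin, Finset.card_range] at h1
    exact h1
  have hqR : (0 : ℝ) < q := by exact_mod_cast hq
  have hVR : (V.card : ℝ) = (q : ℝ) ^ n / q := by
    have : (q : ℝ) * V.card = (q : ℝ) ^ n := by exact_mod_cast hVc
    rw [eq_div_iff hqR.ne']
    linarith
  have h12 : ((2 * H / q + 1 : ℕ) : ℝ) ≤ 3 * H / q := by
    have h13 : ((2 * H / q : ℕ) : ℝ) ≤ (2 * H : ℝ) / q := by
      have := @Nat.cast_div_le ℝ _ _ _ (2 * H) q
      push_cast at this
      exact_mod_cast this
    have h14 : (1 : ℝ) ≤ H / q := by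
      rw [le_div_iff₀ hqR, one_mul]; exact_mod_cast hqH
    push_cast
    calc ((2 * H / q : ℕ) : ℝ) + 1 ≤ (2 * H : ℝ) / q + H / q := add_le_add h13 h14
      _ = 3 * H / q := by ring
  calc (((box (Fin n) H).filter (fun a => (q : ℤ) ∣ t - ∑ i, a i * z i)).card : ℝ)
      ≤ (V.card : ℝ) * ((2 * H / q + 1 : ℕ) : ℝ) ^ n := by exact_mod_cast hcard
    _ ≤ ((q : ℝ) ^ n / q) * (3 * H / q) ^ n := by
        rw [hVR]
        apply mul_le_mul_of_nonneg_left _ (by positivity)
        exact pow_le_pow_left₀ (by positivity) h12 n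
    _ = (3 * H : ℝ) ^ n / q := by
        rw [div_pow]
        field_simp

end

end Pool.Agent.Y738.RC
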