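import Pool.Agent.Y738.RC.Pt

set_option autoImplicit false

namespace Pool.Agent.Y738.RC

open Polynomial

noncomputable section

/-- the constant -/
def Kc (d : ℕ) : ℝ := 4 * 4 ^ d * (d + 1) + 1

theorem Kc_pos (d : ℕ) : 0 < Kc d := by unfold Kc; positivity

/-- height of the point with `y_j = 1` -/
def hj {n : ℕ} (r : ℕ) (j : Fin (n + 1)) (y : Fin (n + 1) → ℂ) : ℕ :=
  (Finset.univ.erase j).sup (fun k => hgt r (y k))

open Classical in
/-- the parameters for which the variety contains `y` -/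
def Z {n s : ℕ} (F : Fin s → MvPolynomial (Fin (n + 1)) ℂ)
    (S : Fin s → Finset (Fin (n + 1) → ℕ)) (H : ℕ) (y : Fin (n + 1) → ℂ) :
    Finset ((i : Fin s) → S i → ℤ) :=
  Fintype.piFinset fun i => (box (S i) H).filter
    (fun c => MvPolynomial.eval y (F i) + ∑ α : S i, (c α : ℂ) * mono α.1 y = 0)

theorem mem_Z {n s : ℕ} {F : Fin s → MvPolynomial (Fin (n + 1)) ℂ}
    {S : Fin s → Finset (Fin (n + 1) → ℕ)} {H : ℕ} {y : Fin (n + 1) → ℂ}
    {c : (i : Fin s) → S i → ℤ} : c ∈ Z F S H y ↔ (∀ i α, |c i α| ≤ H) ∧ OnVar F S c y := by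
  classical
  simp only [Z, Fintype.mem_piFinset, Finset.mem_filter, mem_box, OnVar]
  exact forall_and

/-- `S` contains all monomials of degree `d` in at most two variables -/
def TwoVar {n : ℕ} (d : ℕ) (S : Finset (Fin (n + 1) → ℕ)) : Prop :=
  ∀ α : Fin (n + 1) → ℕ, ∑ k, α k = d → (∃ a b, ∀ k, k ≠ a → k ≠ b → α k = 0) → α ∈ S

theorem card_Zi {n : ℕ} (hn : 1 ≤ n) (r d H : ℕ) (hd : 1 ≤ d) (hH : 1 ≤ H)
    (G : MvPolynomial (Fin (n + 1)) ℂ) (S : Finset (Fin (n + 1) → ℕ)) (hS : TwoVar d S)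
    (j : Fin (n + 1)) (y : Fin (n + 1) → ℂ) (hy : y j = 1) (hA : ∀ k, Alg r (y k))
    [DecidablePred (fun c : S → ℤ => MvPolynomial.eval y G + ∑ α : S, (c α : ℂ) * mono α.1 y = 0)] :
    (((box S H).filter
      (fun c => MvPolynomial.eval y G + ∑ α : S, (c α : ℂ) * mono α.1 y = 0)).card : ℝ) ≤
      (2 * H + 1 : ℝ) ^ S.card / (2 * H + 1 : ℝ) ^ (d + 1) *
        (Kc d * ((H : ℝ) / (min (hj r j y) H : ℕ))) ^ d := by
  classical
  have hne : (Finset.univ.erase j).Nonempty := by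
    rw [← Finset.card_pos, Finset.card_erase_of_mem (Finset.mem_univ _), Finset.card_univ,
      Fintype.card_fin]
    omega
  obtain ⟨i, hi, hij⟩ := Finset.exists_mem_eq_sup _ hne (fun k => hgt r (y k))
  have hne2 : i ≠ j := (Finset.mem_erase.1 hi).1
  have hhj : hj r j y = hgt r (y i) := hij
  rw [hhj]
  have hex : ∀ k : Fin (d + 1), ex i j d k ∈ S := by
    intro k
    apply hS _ (ex_sum i j hne2 d k (by omega))
    refine ⟨i, j, fun l h1 h2 => ?_⟩
    simp [ex, h1, h2]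
  let e : Fin (d + 1) → S := fun k => ⟨ex i j d k, hex k⟩
  have he : Function.Injective e := by
    intro a b hab
    have h1 : ex i j d a i = ex i j d b i := by
      have := congrArg Subtype.val hab
      exact congrFun this i
    simp only [ex, if_true] at h1
    exact Fin.ext h1
  have h1 := card_fib d H e he (fun α : S => mono α.1 y) (y i)
    (fun k => mono_ex i j hne2 d k y hy) (MvPolynomial.eval y G)
  have h2 := card_T d r H (hgt r (y i)) hd hH (hgt_pos (hA i)) (y i) (hA i)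
    (fun q a b c => hgt_le q a b c)
  have hle : d + 1 ≤ Fintype.card S := by
    have := Fintype.card_le_of_injective e he
    rwa [Fintype.card_fin] at this
  have hfil : (box S H).filter
      (fun c => MvPolynomial.eval y G + ∑ α : S, (c α : ℂ) * mono α.1 y = 0) =
      (box S H).filter (fun c => MvPolynomial.eval y G + ∑ a : S, (c a : ℂ) *
        (fun α : S => mono α.1 y) a = 0) := by
    ext c
    simp only [Finset.mem_filter]
  have h3 : (((box S H).filter
      (fun c => MvPolynomial.eval y G + ∑ α : S, (c α : ℂ) * mono α.1 y = 0)).card : ℝ) ≤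
      (T d (y i) (2 * H)).card * (2 * H + 1 : ℝ) ^ (Fintype.card S - (d + 1)) := by
    have h4 : ((box S H).filter
      (fun c => MvPolynomial.eval y G + ∑ α : S, (c α : ℂ) * mono α.1 y = 0)).card ≤
      (T d (y i) (2 * H)).card * (2 * H + 1) ^ (Fintype.card S - (d + 1)) := by
      convert h1
    exact_mod_cast h4
  have h5 : (2 * H + 1 : ℝ) ^ (Fintype.card S - (d + 1)) =
      (2 * H + 1 : ℝ) ^ S.card / (2 * H + 1 : ℝ) ^ (d + 1) := by
    rw [pow_sub₀ _ (by positivity) hle, Fintype.card_coe, div_eq_mul_inv]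
  calc _ ≤ (T d (y i) (2 * H)).card * (2 * H + 1 : ℝ) ^ (Fintype.card S - (d + 1)) := h3
    _ ≤ ((Kc d) * ((H : ℝ) / (min (hgt r (y i)) H : ℕ))) ^ d *
        (2 * H + 1 : ℝ) ^ (Fintype.card S - (d + 1)) := by
        apply mul_le_mul_of_nonneg_right h2 (by positivity)
    _ = _ := by rw [h5]; ring

theorem card_Z {n s : ℕ} (hn : 1 ≤ n) (r H : ℕ) (d : Fin s → ℕ) (hd : ∀ i, 1 ≤ d i) (hH : 1 ≤ H)
    (F : Fin s → MvPolynomial (Fin (n + 1)) ℂ) (S : Fin s → Finset (Fin (n + 1) → ℕ))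
    (hS : ∀ i, TwoVar (d i) (S i))
    (j : Fin (n + 1)) (y : Fin (n + 1) → ℂ) (hy : y j = 1) (hA : ∀ k, Alg r (y k)) :
    ((Z F S H y).card : ℝ) ≤
      (2 * H + 1 : ℝ) ^ (∑ i, (S i).card) / (2 * H + 1 : ℝ) ^ (s + ∑ i, d i) *
        (∏ i, Kc (d i) ^ d i) * ((H : ℝ) / (min (hj r j y) H : ℕ)) ^ (∑ i, d i) := by
  classical
  rw [Z, Fintype.card_piFinset, Nat.cast_prod]
  calc _ ≤ ∏ i, ((2 * H + 1 : ℝ) ^ (S i).card / (2 * H + 1 : ℝ) ^ (d i + 1) *
        (Kc (d i) * ((H : ℝ) / (min (hj r j y) H : ℕ))) ^ d i) := by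
        apply Finset.prod_le_prod (fun i _ => by positivity)
        intro i _
        have := card_Zi hn r (d i) H (hd i) hH (F i) (S i) (hS i) j y hy hA
        exact this
    _ = _ := by
        rw [Finset.prod_mul_distrib, Finset.prod_div_distrib, Finset.prod_pow_eq_pow_sum,
          Finset.prod_pow_eq_pow_sum]
        simp_rw [mul_pow]
        rw [Finset.prod_mul_distrib, Finset.prod_pow_eq_pow_sum, Finset.sum_add_distrib]
        simp only [Finset.sum_const, Finset.card_univ, Fintype.card_fin, smul_eq_mul, mul_one]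
        rw [add_comm (∑ i, d i) s]
        ring

theorem card_norm {n : ℕ} (r : ℕ) (j : Fin (n + 1)) (P : Finset (Fin (n + 1) → ℂ))
    (h1 : ∀ y ∈ P, y j = 1 ∧ ∀ k, Alg r (y k)) (k : ℕ) (hk : 1 ≤ k) :
    ((P.filter (fun y => hj r j y ≤ k)).card : ℝ) ≤ (3 ^ (r + 1) * r) ^ n * (k : ℝ) ^ (n * (r + 1)) := by
  have h2 : (P.filter (fun y => hj r j y ≤ k)).card ≤
      (Fintype.piFinset (fun _ : Fin n => ASet r k)).card := by
    apply Finset.card_le_card_of_injOn (fun y l => y (j.succAbove l))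
    · intro y hy
      rw [Finset.mem_coe, Finset.mem_filter] at hy
      rw [Finset.mem_coe, Fintype.mem_piFinset]
      intro l
      apply mem_ASet ((h1 y hy.1).2 _)
      refine le_trans ?_ hy.2
      exact Finset.le_sup (f := fun k => hgt r (y k))
        (Finset.mem_erase.2 ⟨Fin.succAbove_ne j l, Finset.mem_univ _⟩)
    · intro y hy y' hy' hyy
      rw [Finset.mem_coe, Finset.mem_filter] at hy hy'
      funext k
      by_cases hkj : k = j
      · rw [hkj, (h1 y hy.1).1, (h1 y' hy'.1).1]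
      · obtain ⟨l, rfl⟩ := Fin.exists_succAbove_eq hkj
        exact congrFun hyy l
  rw [Fintype.card_piFinset, Finset.prod_const, Finset.card_univ, Fintype.card_fin] at h2
  have h3 : (ASet r k).card ^ n ≤ ((3 * k) ^ (r + 1) * r) ^ n := by
    apply Nat.pow_le_pow_left
    refine (card_ASet r k).trans ?_
    apply Nat.mul_le_mul_right
    apply Nat.pow_le_pow_left
    omega
  have h4 : ((P.filter (fun y => hj r j y ≤ k)).card : ℝ) ≤ (((3 * k) ^ (r + 1) * r) ^ n : ℕ) := by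
    exact_mod_cast h2.trans h3
  refine h4.trans (le_of_eq ?_)
  push_cast
  rw [mul_pow, mul_pow, mul_pow, mul_pow, ← pow_mul, ← pow_mul, mul_comm (r + 1) n]
  ring

/-- the constant of the theorem for algebraic points -/
def Cst (n r : ℕ) {s : ℕ} (d : Fin s → ℕ) : ℝ :=
  (n + 1) * (∏ i, Kc (d i) ^ d i) * ((3 ^ (r + 1) * r) ^ n * 2 ^ (n * (r + 1) + 1) + 1)

theorem Cst_pos (n r : ℕ) {s : ℕ} (d : Fin s → ℕ) : 0 < Cst n r d := by
  unfold Cst
  have : 0 < ∏ i, Kc (d i) ^ d i := Finset.prod_pos fun i _ => pow_pos (Kc_pos _) _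
  positivity

/-- the parameters for which the variety has a point with the property `Q` -/
def bad {n s : ℕ} (F : Fin s → MvPolynomial (Fin (n + 1)) ℂ)
    (S : Fin s → Finset (Fin (n + 1) → ℕ)) (H : ℕ) (Q : (Fin (n + 1) → ℂ) → Prop) :
    Set ((i : Fin s) → S i → ℤ) :=
  {c | (∀ i α, |c i α| ≤ H) ∧ ∃ x, Q x ∧ OnVar F S c x}

/-- all coordinate ratios are algebraic of degree at most `r` -/
def AlgPt {n : ℕ} (r : ℕ) (x : Fin (n + 1) → ℂ) : Prop :=
  ∃ j, x j ≠ 0 ∧ ∀ k, Alg r (x k / x j)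

theorem bad_le {n s : ℕ} (hn : 1 ≤ n) (r H : ℕ) (d : Fin s → ℕ) (hd : ∀ i, 1 ≤ d i) (hH : 1 ≤ H)
    (hD : n * (r + 1) < ∑ i, d i)
    (F : Fin s → MvPolynomial (Fin (n + 1)) ℂ) (hF : ∀ i, (F i).IsHomogeneous (d i))
    (S : Fin s → Finset (Fin (n + 1) → ℕ)) (hS : ∀ i, ∀ α ∈ S i, ∑ k, α k = d i)
    (hS2 : ∀ i, TwoVar (d i) (S i)) (P : Finset (Fin (n + 1) → ℂ)) (hP : ∀ x ∈ P, AlgPt r x) :
    ((bad F S H (fun x => x ∈ P)).ncard : ℝ) * (H : ℝ) ^ s ≤
      Cst n r d * (2 * H + 1 : ℝ) ^ (∑ i, (S i).card) * (1 + P.card / (H : ℝ) ^ (∑ i, d i)) := by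
  classical
  set D := ∑ i, d i with hDdef
  set W : ℝ := (2 * H + 1 : ℝ) ^ (∑ i, (S i).card) / (2 * H + 1 : ℝ) ^ (s + D) *
        (∏ i, Kc (d i) ^ d i) with hW
  have hKp : 0 < ∏ i, Kc (d i) ^ d i := Finset.prod_pos fun i _ => pow_pos (Kc_pos _) _
  have hW0 : 0 ≤ W := by rw [hW]; positivity
  have hHR : (1 : ℝ) ≤ H := by exact_mod_cast hH
  choose! jj hjj using hP
  set P' : Finset (Fin (n + 1) → ℂ) := P.image (fun x k => x k / x (jj x)) with hP'
  have hP'c : P'.card ≤ P.card := Finset.card_image_le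
  set Pj : Fin (n + 1) → Finset (Fin (n + 1) → ℂ) :=
    fun j => P'.filter (fun y => y j = 1 ∧ ∀ k, Alg r (y k)) with hPj
  have hsub : bad F S H (fun x => x ∈ P) ⊆
      ((Finset.univ : Finset (Fin (n + 1))).biUnion (fun j => (Pj j).biUnion (Z F S H)) :
        Finset ((i : Fin s) → S i → ℤ)) := by
    rintro c ⟨hc1, x, hx, hc2⟩
    obtain ⟨h1, h2⟩ := hjj x hx
    rw [Finset.mem_coe, Finset.mem_biUnion]
    refine ⟨jj x, Finset.mem_univ _, ?_⟩
    rw [Finset.mem_biUnion]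
    refine ⟨fun k => x k / x (jj x), ?_, ?_⟩
    · rw [hPj, Finset.mem_filter]
      exact ⟨Finset.mem_image.2 ⟨x, hx, rfl⟩, div_self h1, h2⟩
    · rw [mem_Z]
      refine ⟨hc1, ?_⟩
      have := OnVar.smul hF hS hc2 (1 / x (jj x))
      convert this using 2 with k
      ring
  have hcard : ((bad F S H (fun x => x ∈ P)).ncard : ℝ) ≤
      ∑ j : Fin (n + 1), ∑ y ∈ Pj j, ((Z F S H y).card : ℝ) := by
    have h1 : (bad F S H (fun x => x ∈ P)).ncard ≤
        ((Finset.univ : Finset (Fin (n + 1))).biUnion (fun j => (Pj j).biUnion (Z F S H))).card := by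
      rw [← Set.ncard_coe_finset]
      exact Set.ncard_le_ncard hsub (Finset.finite_toSet _)
    have h2 : ((Finset.univ : Finset (Fin (n + 1))).biUnion
        (fun j => (Pj j).biUnion (Z F S H))).card ≤
        ∑ j : Fin (n + 1), ∑ y ∈ Pj j, (Z F S H y).card := by
      refine Finset.card_biUnion_le.trans (Finset.sum_le_sum fun j _ => ?_)
      exact Finset.card_biUnion_le
    exact_mod_cast h1.trans h2
  have hj1 : ∀ j, ∑ y ∈ Pj j, ((Z F S H y).card : ℝ) ≤
      W * (((3 ^ (r + 1) * r) ^ n * 2 ^ (n * (r + 1) + 1)) * (H : ℝ) ^ D + P.card) := by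
    intro j
    have hmem : ∀ y ∈ Pj j, y j = 1 ∧ ∀ k, Alg r (y k) := fun y hy => (Finset.mem_filter.1 hy).2
    have hpos : ∀ y ∈ Pj j, 1 ≤ hj r j y := by
      intro y hy
      have hne : (Finset.univ.erase j).Nonempty := by
        rw [← Finset.card_pos, Finset.card_erase_of_mem (Finset.mem_univ _), Finset.card_univ,
          Fintype.card_fin]
        omega
      obtain ⟨i, hi⟩ := hne
      refine (hgt_pos ((hmem y hy).2 i)).trans ?_
      exact Finset.le_sup (f := fun k => hgt r (y k)) hi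
    calc ∑ y ∈ Pj j, ((Z F S H y).card : ℝ)
        ≤ ∑ y ∈ Pj j, W * ((H : ℝ) ^ D * (1 / (hj r j y : ℝ)) ^ D + 1) := by
          refine Finset.sum_le_sum fun y hy => ?_
          refine (card_Z hn r H d hd hH F S hS2 j y (hmem y hy).1 (hmem y hy).2).trans ?_
          apply mul_le_mul_of_nonneg_left _ hW0
          rcases le_total (hj r j y) H with hle | hle
          · rw [Nat.min_eq_left hle, div_eq_mul_one_div, mul_pow]
            linarith
          · rw [Nat.min_eq_right hle, div_self (by positivity), one_pow]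
            have : 0 ≤ (H : ℝ) ^ D * (1 / (hj r j y : ℝ)) ^ D := by positivity
            linarith
      _ = W * ((H : ℝ) ^ D * ∑ y ∈ Pj j, (1 / (hj r j y : ℝ)) ^ D + (Pj j).card) := by
          rw [← Finset.mul_sum, Finset.sum_add_distrib, ← Finset.mul_sum, Finset.sum_const,
            nsmul_eq_mul, mul_one]
      _ ≤ W * ((H : ℝ) ^ D * ((3 ^ (r + 1) * r) ^ n * 2 ^ (n * (r + 1) + 1)) + P.card) := by
          apply mul_le_mul_of_nonneg_left _ hW0
          apply add_le_add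
          · apply mul_le_mul_of_nonneg_left _ (by positivity)
            exact sum_inv_le (Pj j) (hj r j) hpos _ (by positivity) _ _ hD
              (card_norm r j (Pj j) hmem)
          · exact_mod_cast (Finset.card_filter_le _ _).trans hP'c
      _ = _ := by ring
  set A : ℝ := (3 ^ (r + 1) * r) ^ n * 2 ^ (n * (r + 1) + 1) with hA
  have hA0 : 0 ≤ A := by positivity
  have h5 : ((bad F S H (fun x => x ∈ P)).ncard : ℝ) ≤
      (n + 1) * (W * (A * (H : ℝ) ^ D + P.card)) := by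
    refine hcard.trans ((Finset.sum_le_sum fun j _ => hj1 j).trans ?_)
    rw [Finset.sum_const, Finset.card_univ, Fintype.card_fin, nsmul_eq_mul]
    push_cast
    exact le_refl _
  have h6 : (A * (H : ℝ) ^ D + P.card) ≤ (A + 1) * ((H : ℝ) ^ D + P.card) := by
    have h7 : (0 : ℝ) ≤ (P.card : ℝ) := Nat.cast_nonneg _
    have h8 : (0 : ℝ) ≤ (H : ℝ) ^ D := by positivity
    nlinarith [mul_nonneg hA0 h7]
  have h9 : (H : ℝ) ^ s * (H : ℝ) ^ D ≤ (2 * H + 1 : ℝ) ^ (s + D) := by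
    rw [← pow_add]
    apply pow_le_pow_left₀ (by positivity)
    linarith
  have h10 : (H : ℝ) ^ D + P.card = (H : ℝ) ^ D * (1 + P.card / (H : ℝ) ^ D) := by
    field_simp
  calc ((bad F S H (fun x => x ∈ P)).ncard : ℝ) * (H : ℝ) ^ s
      ≤ ((n + 1) * (W * (A * (H : ℝ) ^ D + P.card))) * (H : ℝ) ^ s :=
        mul_le_mul_of_nonneg_right h5 (by positivity)
    _ ≤ ((n + 1) * (W * ((A + 1) * ((H : ℝ) ^ D + P.card)))) * (H : ℝ) ^ s := by gcongr
    _ = ((n + 1) * (∏ i, Kc (d i) ^ d i) * (A + 1)) * (2 * H + 1 : ℝ) ^ (∑ i, (S i).card) *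
        (1 + P.card / (H : ℝ) ^ D) *
        (((H : ℝ) ^ s * (H : ℝ) ^ D) / (2 * H + 1 : ℝ) ^ (s + D)) := by
        rw [h10, hW]; ring
    _ ≤ ((n + 1) * (∏ i, Kc (d i) ^ d i) * (A + 1)) * (2 * H + 1 : ℝ) ^ (∑ i, (S i).card) *
        (1 + P.card / (H : ℝ) ^ D) * 1 := by
        apply mul_le_mul_of_nonneg_left _ (by positivity)
        rw [div_le_one (by positivity)]
        exact h9
    _ = _ := by rw [mul_one, Cst]

end

end Pool.Agent.Y738.RC
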