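import Mathlib

set_option autoImplicit false

namespace Pool.Agent.Y738.RC

open Polynomial

/-- An algebraic number is a root of an integer polynomial dividing all integer polynomials which
vanish at it. -/
theorem exists_gen (θ : ℂ) (q : ℤ[X]) (hq : q ≠ 0) (h0 : aeval θ q = 0) :
    ∃ p : ℤ[X], p ≠ 0 ∧ 1 ≤ p.natDegree ∧ aeval θ p = 0 ∧
      ∀ c : ℤ[X], aeval θ c = 0 → p ∣ c := by
  classical
  set P : Ideal ℤ[X] := RingHom.ker (aeval θ : ℤ[X] →ₐ[ℤ] ℂ) with hP
  have hPp : P.IsPrime := RingHom.ker_isPrime _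
  have hPb : P ≠ ⊥ := by
    intro h
    apply hq
    have : q ∈ P := by simpa [hP, RingHom.mem_ker] using h0
    rw [h] at this
    simpa using this
  obtain ⟨p, hpP, hpp⟩ := hPp.exists_mem_prime_of_ne_bot hPb
  have hp0 : aeval θ p = 0 := by simpa [hP, RingHom.mem_ker] using hpP
  have hpd : 1 ≤ p.natDegree := by
    by_contra hcon
    have h1 : p.natDegree = 0 := by omega
    have h2 : aeval θ p = ((p.coeff 0 : ℤ) : ℂ) := by
      conv_lhs => rw [eq_C_of_natDegree_eq_zero h1, aeval_C]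
      simp
    rw [h2] at hp0
    have h3 : p.coeff 0 = 0 := by exact_mod_cast hp0
    apply hpp.ne_zero
    rw [eq_C_of_natDegree_eq_zero h1, h3, C_0]
  have hirr : Irreducible p := hpp.irreducible
  have hprim : p.IsPrimitive := hirr.isPrimitive (by omega)
  have hirrQ : Irreducible (p.map (Int.castRingHom ℚ)) :=
    (IsPrimitive.Int.irreducible_iff_irreducible_map_cast hprim).1 hirr
  refine ⟨p, hpp.ne_zero, hpd, hp0, fun c hc => ?_⟩
  by_cases hc0 : c = 0
  · simp [hc0]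
  have hQ : ∀ f : ℤ[X], aeval θ (f.map (Int.castRingHom ℚ)) = aeval θ f := fun f => by
    have := aeval_map_algebraMap ℚ θ f
    simpa using this
  have hdvd : p.map (Int.castRingHom ℚ) ∣ c.map (Int.castRingHom ℚ) := by
    by_contra hnd
    have hcop : IsCoprime (p.map (Int.castRingHom ℚ)) (c.map (Int.castRingHom ℚ)) :=
      (hirrQ.coprime_iff_not_dvd).2 hnd
    obtain ⟨a, b, hab⟩ := hcop
    have := congrArg (aeval θ) hab
    rw [map_add, map_mul, map_mul, hQ, hQ, hp0, hc] at this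
    simp at this
  exact (IsPrimitive.Int.dvd_iff_map_cast_dvd_map_cast _ _ hprim).2 hdvd

theorem coeff_le_mahler (d : ℕ) (p : ℤ[X]) (hp : p.natDegree ≤ d) (k : ℕ) :
    |(p.coeff k : ℝ)| ≤ 2 ^ d * (p.map (Int.castRingHom ℂ)).mahlerMeasure := by
  have h1 := norm_coeff_le_choose_mul_mahlerMeasure k (p.map (Int.castRingHom ℂ))
  have h2 : ‖(p.map (Int.castRingHom ℂ)).coeff k‖ = |(p.coeff k : ℝ)| := by
    rw [coeff_map]
    simp only [eq_intCast]
    rw [← Complex.ofReal_intCast, Complex.norm_real, Real.norm_eq_abs]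
  rw [h2] at h1
  refine h1.trans ?_
  have h3 : ((p.map (Int.castRingHom ℂ)).natDegree).choose k ≤ 2 ^ d := by
    calc ((p.map (Int.castRingHom ℂ)).natDegree).choose k
        ≤ 2 ^ (p.map (Int.castRingHom ℂ)).natDegree := Nat.choose_le_two_pow _ _
      _ ≤ 2 ^ d := Nat.pow_le_pow_right (by norm_num) ((natDegree_map_le).trans hp)
  exact mul_le_mul_of_nonneg_right (by exact_mod_cast h3) (mahlerMeasure_nonneg _)

theorem mahler_le (d : ℕ) (p : ℤ[X]) (hp : p.natDegree ≤ d) (A : ℝ) 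
    (h : ∀ k, |(p.coeff k : ℝ)| ≤ A) :
    (p.map (Int.castRingHom ℂ)).mahlerMeasure ≤ (d + 1) * A := by
  refine (mahlerMeasure_le_sum_norm_coeff _).trans ?_
  have hA : 0 ≤ A := (abs_nonneg _).trans (h 0)
  rw [sum_def]
  have h2 : ∀ k, ‖(p.map (Int.castRingHom ℂ)).coeff k‖ = |(p.coeff k : ℝ)| := by
    intro k
    rw [coeff_map]
    simp only [eq_intCast]
    rw [← Complex.ofReal_intCast, Complex.norm_real, Real.norm_eq_abs]
  calc ∑ k ∈ (p.map (Int.castRingHom ℂ)).support, ‖(p.map (Int.castRingHom ℂ)).coeff k‖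
      ≤ ∑ k ∈ (p.map (Int.castRingHom ℂ)).support, A := 
        Finset.sum_le_sum (fun k _ => by rw [h2]; exact h k)
    _ = ((p.map (Int.castRingHom ℂ)).support.card : ℝ) * A := by rw [Finset.sum_const, nsmul_eq_mul]
    _ ≤ (d + 1) * A := by
        apply mul_le_mul_of_nonneg_right _ hA
        have h4 : (p.map (Int.castRingHom ℂ)).support.card ≤ d + 1 :=
          (card_supp_le_succ_natDegree _).trans
            (Nat.succ_le_succ ((natDegree_map_le).trans hp))
        exact_mod_cast h4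

theorem quot_le (d : ℕ) (p g : ℤ[X]) (hp0 : p ≠ 0) (hpd : p.natDegree ≤ d)
    (hgd : g.natDegree ≤ d) (hc : (p * g).natDegree ≤ d) (A h : ℝ) (hh : 0 < h)
    (hA : ∀ k, |((p * g).coeff k : ℝ)| ≤ A) (j : ℕ) (hj : h ≤ |(p.coeff j : ℝ)|) (k : ℕ) :
    |(g.coeff k : ℝ)| ≤ 4 ^ d * (d + 1) * A / h := by
  have h1 := mahler_le d (p * g) hc A hA
  rw [Polynomial.map_mul, mahlerMeasure_mul] at h1
  have h2 := coeff_le_mahler d g hgd k
  have h3 := coeff_le_mahler d p hpd j
  set Mp := (p.map (Int.castRingHom ℂ)).mahlerMeasure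
  set Mg := (g.map (Int.castRingHom ℂ)).mahlerMeasure
  have hMg : 0 ≤ Mg := mahlerMeasure_nonneg _
  rw [le_div_iff₀ hh]
  have h4 : h ≤ 2 ^ d * Mp := hj.trans h3
  have e4 : (4 : ℝ) ^ d = 2 ^ d * 2 ^ d := by rw [← mul_pow]; norm_num
  calc |(g.coeff k : ℝ)| * h ≤ (2 ^ d * Mg) * (2 ^ d * Mp) :=
        mul_le_mul h2 h4 hh.le (by positivity)
    _ = 4 ^ d * (Mp * Mg) := by rw [e4]; ring
    _ ≤ 4 ^ d * ((d + 1) * A) := mul_le_mul_of_nonneg_left h1 (by positivity)
    _ = 4 ^ d * (d + 1) * A := by ring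

end Pool.Agent.Y738.RC
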