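import Pool.Agent.Y738.RC.Hgt

set_option autoImplicit false

namespace Pool.Agent.Y738.RC

open Polynomial

noncomputable section

/-- the monomial with exponents `α` -/
def mono {n : ℕ} (α : Fin (n + 1) → ℕ) (x : Fin (n + 1) → ℂ) : ℂ := ∏ k, x k ^ α k

/-- the point `x` lies on `F_i + ∑ c_{i,α} x^α = 0` -/
def OnVar {n s : ℕ} (F : Fin s → MvPolynomial (Fin (n + 1)) ℂ)
    (S : Fin s → Finset (Fin (n + 1) → ℕ)) (c : (i : Fin s) → S i → ℤ)
    (x : Fin (n + 1) → ℂ) : Prop :=
  ∀ i, MvPolynomial.eval x (F i) + ∑ α : S i, (c i α : ℂ) * mono α.1 x = 0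

/-- the exponents of `x_i^k x_j^(d-k)` -/
def ex {n : ℕ} (i j : Fin (n + 1)) (d k : ℕ) : Fin (n + 1) → ℕ :=
  fun l => if l = i then k else if l = j then d - k else 0

theorem ex_sum {n : ℕ} (i j : Fin (n + 1)) (hij : i ≠ j) (d k : ℕ) (hk : k ≤ d) :
    ∑ l, ex i j d k l = d := by
  classical
  have h1 : ∑ l, ex i j d k l = ∑ l ∈ ({i, j} : Finset (Fin (n + 1))), ex i j d k l := by
    symm
    apply Finset.sum_subset (Finset.subset_univ _)
    intro l _ hl
    simp only [Finset.mem_insert, Finset.mem_singleton, not_or] at hl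
    simp [ex, hl.1, hl.2]
  rw [h1, Finset.sum_pair hij]
  simp only [ex, if_true, if_neg hij.symm]
  omega

theorem mono_ex {n : ℕ} (i j : Fin (n + 1)) (hij : i ≠ j) (d k : ℕ) (y : Fin (n + 1) → ℂ)
    (hy : y j = 1) : mono (ex i j d k) y = y i ^ k := by
  classical
  have h1 : mono (ex i j d k) y = ∏ l ∈ ({i, j} : Finset (Fin (n + 1))), y l ^ ex i j d k l := by
    symm
    apply Finset.prod_subset (Finset.subset_univ _)
    intro l _ hl
    simp only [Finset.mem_insert, Finset.mem_singleton, not_or] at hl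
    simp [ex, hl.1, hl.2]
  rw [h1, Finset.prod_pair hij]
  simp [ex, hij.symm, hy]

/-- scaling -/
theorem OnVar.smul {n s : ℕ} {F : Fin s → MvPolynomial (Fin (n + 1)) ℂ}
    {S : Fin s → Finset (Fin (n + 1) → ℕ)} {d : Fin s → ℕ} (hF : ∀ i, (F i).IsHomogeneous (d i))
    (hS : ∀ i, ∀ α ∈ S i, ∑ k, α k = d i) {c : (i : Fin s) → S i → ℤ} {x : Fin (n + 1) → ℂ}
    (h : OnVar F S c x) (t : ℂ) : OnVar F S c (fun k => t * x k) := by
  intro i
  have h1 : MvPolynomial.eval (fun k => t * x k) (F i) = t ^ d i * MvPolynomial.eval x (F i) := by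
    rw [MvPolynomial.eval_eq', MvPolynomial.eval_eq', Finset.mul_sum]
    refine Finset.sum_congr rfl fun m hm => ?_
    have h2 : ∑ k, m k = d i := by
      have h3 := (hF i).degree_eq_sum_deg_support hm
      rw [h3]
      symm
      apply Finset.sum_subset (Finset.subset_univ _)
      intro k _ hk
      simpa using hk
    simp_rw [mul_pow]
    rw [Finset.prod_mul_distrib, Finset.prod_pow_eq_pow_sum, h2]
    ring
  have h2 : ∀ α ∈ S i, mono α (fun k => t * x k) = t ^ d i * mono α x := by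
    intro α hα
    unfold mono
    simp_rw [mul_pow]
    rw [Finset.prod_mul_distrib, Finset.prod_pow_eq_pow_sum, hS i α hα]
  rw [h1]
  have h3 := h i
  calc t ^ d i * MvPolynomial.eval x (F i) + ∑ α : S i, (c i α : ℂ) * mono α.1 (fun k => t * x k)
      = t ^ d i * (MvPolynomial.eval x (F i) + ∑ α : S i, (c i α : ℂ) * mono α.1 x) := by
        rw [mul_add, Finset.mul_sum]
        congr 1
        refine Finset.sum_congr rfl fun α _ => ?_
        rw [h2 α.1 α.2]; ring
    _ = 0 := by rw [h3, mul_zero]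

end

end Pool.Agent.Y738.RC
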